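import Pool.Agent.Work.MP_9d0e17_co.Frame

set_option autoImplicit false

open Complex ComplexConjugate

namespace Pool.Agent.Paley67

variable {p : ℕ} [hp : Fact p.Prime]

/-- the finite set of residues attached to a set of column labels -/
noncomputable def resSet (p : ℕ) (S : Finset ℕ) : Finset (ZMod p) :=
  (S.erase p).image (fun n : ℕ => (n : ZMod p))

theorem val_of_mem {S : Finset ℕ} (hS : S ⊆ Finset.range (p + 1)) {j : ℕ} (hj : j ∈ S.erase p) :
    j < p := by
  have h1 := Finset.mem_erase.1 hj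
  have h2 := Finset.mem_range.1 (hS h1.2)
  omega

theorem sum_resSet {M : Type*} [AddCommMonoid M] (S : Finset ℕ)
    (hS : S ⊆ Finset.range (p + 1)) (f : ZMod p → M) :
    ∑ a ∈ resSet p S, f a = ∑ j ∈ S.erase p, f (j : ZMod p) := by
  classical
  unfold resSet
  rw [Finset.sum_image]
  intro i hi j hj hij
  have hi' := val_of_mem hS hi
  have hj' := val_of_mem hS hj
  have h := congrArg ZMod.val hij
  simp only at h
  rwa [ZMod.val_cast_of_lt hi', ZMod.val_cast_of_lt hj'] at h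

theorem card_resSet (S : Finset ℕ) : (resSet p S).card ≤ S.card :=
  Finset.card_image_le.trans (Finset.card_le_card (Finset.erase_subset _ _))

theorem psi_nat (r j : ℕ) : psi p ((r : ZMod p) * (j : ZMod p)) =
    Complex.exp (2 * (Real.pi : ℂ) * Complex.I * ((r : ℂ) * (j : ℂ)) / (p : ℂ)) := by
  have h := ZMod.stdAddChar_coe (N := p) ((r : ℤ) * (j : ℤ))
  push_cast at h
  exact h

theorem hat_resSet (S : Finset ℕ) (hS : S ⊆ Finset.range (p + 1)) (x : ℕ → ℂ) (r : ℕ) :
    hat (resSet p S) (fun a => x a.val) (r : ZMod p) =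
      ∑ j ∈ S.erase p,
        Complex.exp (2 * (Real.pi : ℂ) * Complex.I * ((r : ℂ) * (j : ℂ)) / (p : ℂ)) * x j := by
  unfold hat
  rw [sum_resSet S hS]
  refine Finset.sum_congr rfl fun j hj => ?_
  have h1 : x ((j : ZMod p)).val = x j := by rw [ZMod.val_cast_of_lt (val_of_mem hS hj)]
  rw [psi_nat]
  show _ * x ((j : ZMod p)).val = _
  rw [h1]

/-- the entry formula of the frame matrix -/
noncomputable def Ph (p : ℕ) (r j : ℕ) : ℂ :=
  if j = p then (if r = 0 then (1 : ℂ) else 0)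
  else if r = 0 then ((1 / Real.sqrt (p : ℝ) : ℝ) : ℂ)
  else ((Real.sqrt (2 / (p : ℝ)) : ℝ) : ℂ) *
    Complex.exp (2 * (Real.pi : ℂ) * Complex.I * ((r : ℂ) * (j : ℂ)) / (p : ℂ))

omit hp in
theorem sum_split (S : Finset ℕ) (f : ℕ → ℂ) :
    ∑ j ∈ S, f j = (if p ∈ S then f p else 0) + ∑ j ∈ S.erase p, f j := by
  by_cases h : p ∈ S
  · rw [if_pos h, Finset.add_sum_erase S f h]
  · rw [if_neg h, zero_add, Finset.erase_eq_of_notMem h]

theorem row_zero (S : Finset ℕ) (hS : S ⊆ Finset.range (p + 1)) (x : ℕ → ℂ) :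
    ∑ j ∈ S, Ph p 0 j * x j = (if p ∈ S then x p else 0) +
      hat (resSet p S) (fun a => x a.val) 0 / (Real.sqrt p : ℂ) := by
  rw [sum_split (p := p)]
  congr 1
  · split_ifs with h
    · unfold Ph; rw [if_pos rfl, if_pos rfl, one_mul]
    · rfl
  · have h := hat_resSet S hS x 0
    rw [Nat.cast_zero] at h
    rw [h, Finset.sum_div]
    refine Finset.sum_congr rfl fun j hj => ?_
    have hj' := (Finset.mem_erase.1 hj).1
    unfold Ph
    rw [if_neg hj', if_pos rfl]
    have h1 : Complex.exp (2 * (Real.pi : ℂ) * Complex.I * (((0 : ℕ) : ℂ) * (j : ℂ)) / (p : ℂ)) = 1 := by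
      rw [Nat.cast_zero, zero_mul, mul_zero, zero_div, Complex.exp_zero]
    rw [h1]
    push_cast
    ring

theorem row_pos (S : Finset ℕ) (hS : S ⊆ Finset.range (p + 1)) (x : ℕ → ℂ) {r : ℕ} (hr : r ≠ 0) :
    ∑ j ∈ S, Ph p r j * x j =
      (Real.sqrt (2 / (p : ℝ)) : ℂ) * hat (resSet p S) (fun a => x a.val) (r : ZMod p) := by
  rw [sum_split (p := p), hat_resSet S hS]
  have h1 : (if p ∈ S then Ph p r p * x p else 0) = 0 := by
    unfold Ph
    rw [if_pos rfl, if_neg hr]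
    simp
  rw [h1, zero_add, Finset.mul_sum]
  refine Finset.sum_congr rfl fun j hj => ?_
  have hj' := (Finset.mem_erase.1 hj).1
  unfold Ph
  rw [if_neg hj', if_neg hr]
  ring

theorem rows_erase (f : ZMod p → ℝ) :
    ∑ r ∈ ((Finset.range p).image (fun s => s * s % p)).erase 0, f (r : ZMod p) =
      ∑ z ∈ Finset.univ.filter (fun z : ZMod p => chi p z = 1), f z := by
  classical
  have hp0 := hp.out.pos
  refine Finset.sum_nbij' (fun r : ℕ => (r : ZMod p)) (fun z => z.val) ?_ ?_ ?_ ?_ ?_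
  · intro r hr
    obtain ⟨hr0, hr1⟩ := Finset.mem_erase.1 hr
    obtain ⟨s, hs, rfl⟩ := Finset.mem_image.1 hr1
    rw [Finset.mem_filter]
    refine ⟨Finset.mem_univ _, ?_⟩
    have h1 : ((s * s % p : ℕ) : ZMod p) = (s : ZMod p) * s := by
      rw [ZMod.natCast_mod]; push_cast; rfl
    have h2 : (s : ZMod p) ≠ 0 := by
      intro h3
      rw [ZMod.natCast_eq_zero_iff] at h3
      exact hr0 (Nat.mod_eq_zero_of_dvd (h3.mul_right s))
    rw [h1, ← sq]
    exact quadraticChar_sq_one' h2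
  · intro z hz
    have hz1 := (Finset.mem_filter.1 hz).2
    have hz0 : z ≠ 0 := by
      intro h
      rw [h] at hz1
      have : chi p 0 = 0 := quadraticChar_zero
      rw [this] at hz1
      exact absurd hz1 (by norm_num)
    have hsq : IsSquare z := (quadraticChar_one_iff_isSquare hz0).1 hz1
    obtain ⟨t, ht⟩ := hsq
    rw [Finset.mem_erase, Finset.mem_image]
    refine ⟨by rwa [Ne, ZMod.val_eq_zero], t.val, Finset.mem_range.2 (ZMod.val_lt t), ?_⟩
    rw [ht, ZMod.val_mul]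
  · intro r hr
    obtain ⟨_, hr1⟩ := Finset.mem_erase.1 hr
    obtain ⟨s, hs, rfl⟩ := Finset.mem_image.1 hr1
    exact ZMod.val_cast_of_lt (Nat.mod_lt _ hp0)
  · intro z _
    exact ZMod.natCast_zmod_val z
  · intro r _
    rfl

theorem frame_nrm (S : Finset ℕ) (hS : S ⊆ Finset.range (p + 1)) (x : ℕ → ℂ) :
    ∑ r ∈ (Finset.range p).image (fun s => s * s % p), ‖∑ j ∈ S, Ph p r j * x j‖ ^ 2 =
      nrm (resSet p S) (if p ∈ S then x p else 0) (fun a => x a.val) := by
  classical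
  have hp0 := hp.out.pos
  have h0 : 0 ∈ (Finset.range p).image (fun s => s * s % p) :=
    Finset.mem_image.2 ⟨0, Finset.mem_range.2 hp0, by simp⟩
  rw [← Finset.add_sum_erase _ _ h0, row_zero S hS]
  unfold nrm
  congr 1
  rw [Finset.mul_sum, ← rows_erase (fun z => 2 / (p : ℝ) * ‖hat (resSet p S) (fun a => x a.val) z‖ ^ 2)]
  refine Finset.sum_congr rfl fun r hr => ?_
  rw [row_pos S hS x (Finset.mem_erase.1 hr).1, norm_mul, mul_pow, Complex.norm_real,
    Real.norm_eq_abs, sq_abs, Real.sq_sqrt (by positivity)]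

theorem norm_split (S : Finset ℕ) (hS : S ⊆ Finset.range (p + 1)) (x : ℕ → ℂ) :
    ∑ j ∈ S, ‖x j‖ ^ 2 = ‖(if p ∈ S then x p else 0 : ℂ)‖ ^ 2 +
      ∑ a ∈ resSet p S, ‖x a.val‖ ^ 2 := by
  classical
  rw [sum_resSet S hS (fun a => ‖x a.val‖ ^ 2)]
  have h1 : ∑ j ∈ S.erase p, ‖x ((j : ZMod p)).val‖ ^ 2 = ∑ j ∈ S.erase p, ‖x j‖ ^ 2 := by
    refine Finset.sum_congr rfl fun j hj => ?_
    rw [ZMod.val_cast_of_lt (val_of_mem hS hj)]
  rw [h1]
  by_cases h : p ∈ S
  · rw [if_pos h, Finset.add_sum_erase S (fun j => ‖x j‖ ^ 2) h]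
  · rw [if_neg h, Finset.erase_eq_of_notMem h]; simp

end Pool.Agent.Paley67
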