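import Pool.Agent.Work.MP_9d0e17_co.Robust

set_option autoImplicit false

namespace Pool.Agent.Paley67

variable {p : ℕ} [hp : Fact p.Prime]

theorem chi_neg (hp4 : p % 4 = 1) (a : ZMod p) : chi p (-a) = chi p a := by
  have hp2 : ringChar (ZMod p) ≠ 2 := by
    rw [ZMod.ringChar_zmod_n]; omega
  have h1 : chi p (-1) = 1 := by
    show quadraticChar (ZMod p) (-1) = 1
    rw [quadraticChar_neg_one hp2, ZMod.card, ZMod.χ₄_nat_one_mod_four hp4]
  show quadraticChar (ZMod p) (-a) = quadraticChar (ZMod p) a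
  rw [neg_eq_neg_one_mul, map_mul]
  have h1' : quadraticChar (ZMod p) (-1) = 1 := h1
  rw [h1', one_mul]

theorem chi_sub_comm (hp4 : p % 4 = 1) (a b : ZMod p) : chi p (a - b) = chi p (b - a) := by
  rw [← chi_neg hp4 (b - a), neg_sub]

theorem eigen_ineq (hp4 : p % 4 = 1) (S : Finset (ZMod p)) (x : ZMod p → ℝ) (μ : ℝ)
    (hx : ∃ a ∈ S, x a ≠ 0)
    (heig : ∀ a ∈ S, ∑ b ∈ S, (chi p (a - b) : ℝ) * x b = μ * x a) :
    ∃ (s : ℕ) (I D : ℝ), |μ| + 1 ≤ I ∧ I ≤ S.card ∧ s ≤ S.card ∧ 2 * I - S.card ≤ s ∧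
      D ≤ (S.card - I) / 2 ∧
      ∀ z : ℕ, z + 2 ≤ s → Even (s + z) → s + z ≤ p - 1 →
        |μ| ^ 2 * (s - D) - 2 * |μ| * S.card - S.card * (z : ℝ) ^ 2 ≤
          ((s : ℝ) - z) * ((p : ℝ) - 1 + 2 * z) := by
  classical
  have hp2 : p ≠ 2 := by omega
  obtain ⟨a1, ha1, hxa1⟩ := hx
  obtain ⟨a0, ha0, hmax⟩ := S.exists_max_image (fun a => |x a|) ⟨a1, ha1⟩
  set M := |x a0| with hM
  have hMpos : 0 < M := lt_of_lt_of_le (abs_pos.2 hxa1) (hmax a1 ha1)
  set l := |μ| with hl
  have hl0 : 0 ≤ l := abs_nonneg _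
  let y : ZMod p → ℝ := fun a => |x a| / M
  have hy0 : ∀ a, 0 ≤ y a := fun a => div_nonneg (abs_nonneg _) hMpos.le
  have hy1 : ∀ a ∈ S, y a ≤ 1 := fun a ha => (div_le_one hMpos).2 (hmax a ha)
  have hya0 : y a0 = 1 := div_self hMpos.ne'
  let e : ZMod p → ℤ := fun a => if x a < 0 then -1 else 1
  let sm : ℤ := if μ < 0 then -1 else 1
  let η : ZMod p → ℤ := fun b => sm * e b
  have he : ∀ a, e a = 1 ∨ e a = -1 := by
    intro a; by_cases h : x a < 0 <;> simp [e, h]
  have hsm : sm = 1 ∨ sm = -1 := by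
    by_cases h : μ < 0 <;> simp [sm, h]
  have hη : ∀ a, η a = 1 ∨ η a = -1 := by
    intro a
    rcases he a with h | h <;> rcases hsm with h' | h' <;> simp [η, h, h']
  have hex : ∀ a, (e a : ℝ) * |x a| = x a := by
    intro a
    by_cases h : x a < 0
    · simp [e, h, abs_of_neg h]
    · simp [e, h, abs_of_nonneg (not_lt.1 h)]
  have hex' : ∀ a, (e a : ℝ) * x a = |x a| := by
    intro a
    by_cases h : x a < 0
    · simp [e, h, abs_of_neg h]
    · simp [e, h, abs_of_nonneg (not_lt.1 h)]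
  have hsmμ : (sm : ℝ) * μ = l := by
    by_cases h : μ < 0
    · simp [sm, h, hl, abs_of_neg h]
    · simp [sm, h, hl, abs_of_nonneg (not_lt.1 h)]
  -- the matrix of signs
  let g : ZMod p → ZMod p → ℝ := fun b a => ((η b * e a * chi p (b - a) : ℤ) : ℝ)
  have hgsymm : ∀ a b, g a b = g b a := by
    intro a b
    simp only [g]
    rw [chi_sub_comm hp4 a b]
    simp only [η]
    congr 1
    ring
  have hg : ∀ b ∈ S, ∑ a ∈ S, g b a * y a = l * y b := by
    intro b hb
    have h1 : ∀ a, g b a * y a = ((sm : ℝ) * e b / M) * ((chi p (b - a) : ℝ) * x a) := by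
      intro a
      simp only [g, η, y]
      rw [← hex a]
      push_cast
      have h2 : (e a : ℝ) * ((e a : ℝ) * |x a|) = |x a| := by rw [hex a, hex' a]
      have : (chi p (b - a) : ℝ) * ((e a : ℝ) * |x a|) = (chi p (b - a) : ℝ) * (e a : ℝ) * |x a| := by
        ring
      rw [this, abs_mul, abs_abs]
      have h3 : |(e a : ℝ)| = 1 := by rcases he a with h | h <;> simp [h]
      rw [h3, one_mul]
      field_simp
    rw [Finset.sum_congr rfl fun a _ => h1 a, ← Finset.mul_sum, heig b hb]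
    simp only [y]
    have h2 : (sm : ℝ) * (e b : ℝ) / M * (μ * x b) = ((sm : ℝ) * μ) * ((e b : ℝ) * x b) / M := by
      ring
    rw [h2, hsmμ, hex' b]
    ring
  have hg1 : ∀ a b, g a b ≤ 1 := by
    intro a b
    simp only [g]
    have : η a * e b * chi p (a - b) ≤ 1 := by
      rcases eq_or_ne (a - b) 0 with h | h
      · simp [h]
      · rcases quadraticChar_dichotomy h with h' | h' <;>
        rcases hη a with h2 | h2 <;> rcases he b with h3 | h3 <;>
          simp only [chi] <;> rw [h2, h3, h'] <;> norm_num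
    exact_mod_cast this
  have hgd : ∀ a, g a a = 0 := by
    intro a; simp [g]
  have hite : ∀ a b, (((if η b * e a * chi p (b - a) = 1 then (1 : ℤ) else -1) : ℤ) : ℝ) =
      g b a - if a = b then 1 else 0 := by
    intro a b
    by_cases hab : a = b
    · subst hab
      simp [g]
    · rw [if_neg hab, sub_zero]
      have hne : b - a ≠ 0 := sub_ne_zero.2 (Ne.symm hab)
      have hv : η b * e a * chi p (b - a) = 1 ∨ η b * e a * chi p (b - a) = -1 := by
        have h' : chi p (b - a) = 1 ∨ chi p (b - a) = -1 := quadraticChar_dichotomy hne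
        rcases h' with h' | h' <;> rcases hη b with h2 | h2 <;> rcases he a with h3 | h3 <;>
          rw [h', h2, h3] <;> norm_num
      simp only [g]
      rcases hv with h | h
      · rw [if_pos h, h]
      · rw [if_neg (by rw [h]; norm_num), h]
  let T := S.filter fun a => 1 / 2 < y a
  have hTS : T ⊆ S := Finset.filter_subset _ _
  set m : ℝ := (S.card : ℝ) with hm
  let I := ∑ a ∈ S, y a
  let E := ∑ a ∈ T, y a
  let Y2 := ∑ a ∈ S, y a ^ 2
  have hIm : I ≤ m := by
    calc I ≤ ∑ _a ∈ S, (1 : ℝ) := Finset.sum_le_sum hy1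
      _ = m := by simp [hm]
  have hTm : (T.card : ℝ) ≤ m := by
    rw [hm]
    exact_mod_cast Finset.card_le_card hTS
  have hET : E ≤ T.card := by
    calc E ≤ ∑ _a ∈ T, (1 : ℝ) := Finset.sum_le_sum fun a ha => hy1 a (hTS ha)
      _ = T.card := by simp
  have hlI : l + 1 ≤ I := by
    have h1 := hg a0 ha0
    rw [hya0, mul_one] at h1
    have h2 : ∑ a ∈ S, g a0 a * y a ≤ ∑ a ∈ S, (y a - if a = a0 then 1 else 0) := by
      refine Finset.sum_le_sum fun a ha => ?_
      by_cases h : a = a0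
      · subst h
        rw [hgd, if_pos rfl, hya0]; norm_num
      · rw [if_neg h, sub_zero]
        nlinarith [hg1 a0 a, hy0 a]
    rw [h1, Finset.sum_sub_distrib, Finset.sum_ite_eq' S a0, if_pos ha0] at h2
    linarith
  have hI2 : 2 * I - m ≤ T.card := by
    have h1 : ∑ a ∈ S, (2 * y a - 1) ≤ ∑ a ∈ S, (if 1 / 2 < y a then (1 : ℝ) else 0) := by
      refine Finset.sum_le_sum fun a ha => ?_
      split_ifs with h
      · linarith [hy1 a ha]
      · linarith [not_lt.1 h]
    rw [Finset.sum_sub_distrib, ← Finset.mul_sum, ← Finset.sum_filter] at h1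
    simpa [hm, I, T] using h1
  have hD : (T.card : ℝ) - 2 * E + Y2 ≤ (m - I) / 2 := by
    have h1 : ∑ a ∈ S, ((if 1 / 2 < y a then (1 - 2 * y a) else 0) + y a ^ 2) ≤
        ∑ a ∈ S, (1 - y a) / 2 := by
      refine Finset.sum_le_sum fun a ha => ?_
      have h2 := hy1 a ha
      have h3 := hy0 a
      split_ifs with h
      · nlinarith
      · nlinarith [not_lt.1 h]
    have h2 : ∑ a ∈ S, ((if 1 / 2 < y a then (1 - 2 * y a) else 0) + y a ^ 2) =
        (T.card : ℝ) - 2 * E + Y2 := by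
      rw [Finset.sum_add_distrib, ← Finset.sum_filter]
      have h3 : ∑ a ∈ T, (1 - 2 * y a) = (T.card : ℝ) - 2 * E := by
        rw [Finset.sum_sub_distrib, Finset.mul_sum]
        simp
      rw [← h3]
    have h4 : ∑ a ∈ S, (1 - y a) / 2 = (m - I) / 2 := by
      rw [← Finset.sum_div (f := fun a => 1 - y a), Finset.sum_sub_distrib]
      simp [hm, I]
    rw [h2, h4] at h1
    exact h1
  refine ⟨T.card, I, (T.card : ℝ) - 2 * E + Y2, hlI, hIm, Finset.card_le_card hTS, hI2, hD, ?_⟩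
  intro z hz hpar hTp
  have key := robust_lin hp2 T S e η he hη z hz hpar hTp (fun b => l * y b)
    (fun b _ => mul_nonneg hl0 (hy0 b))
  have h1 : ∑ b ∈ S, y b * (tau T e η b : ℝ) = (l - 1) * E := by
    have h2 : ∀ b, (tau T e η b : ℝ) = ∑ a ∈ T, (g b a - if a = b then 1 else 0) := by
      intro b
      unfold tau
      rw [Int.cast_sum]
      exact Finset.sum_congr rfl fun a _ => hite a b
    rw [Finset.sum_congr rfl fun b _ => by rw [h2 b, Finset.mul_sum], Finset.sum_comm]
    have h3 : ∀ a ∈ T, ∑ b ∈ S, y b * (g b a - if a = b then 1 else 0) = (l - 1) * y a := by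
      intro a ha
      have h4 := hg a (hTS ha)
      have h5 : ∑ b ∈ S, y b * (g b a - if a = b then 1 else 0) =
          (∑ b ∈ S, g a b * y b) - ∑ b ∈ S, (if a = b then y b else 0) := by
        rw [← Finset.sum_sub_distrib]
        refine Finset.sum_congr rfl fun b _ => ?_
        rw [hgsymm a b]
        split_ifs <;> ring
      rw [h5, h4, Finset.sum_ite_eq S a, if_pos (hTS ha)]
      ring
    rw [Finset.sum_congr rfl h3, ← Finset.mul_sum]
  have h2 : ∑ b ∈ S, (2 * (l * y b) * (tau T e η b : ℝ) - (l * y b) ^ 2 - (z : ℝ) ^ 2) =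
      2 * l * ((l - 1) * E) - l ^ 2 * Y2 - m * (z : ℝ) ^ 2 := by
    rw [← h1, Finset.sum_sub_distrib, Finset.sum_sub_distrib, Finset.sum_const, nsmul_eq_mul,
      Finset.mul_sum, Finset.mul_sum]
    congr 1
    congr 1
    · refine Finset.sum_congr rfl fun b _ => ?_
      ring
    · refine Finset.sum_congr rfl fun b _ => ?_
      ring
  rw [h2] at key
  refine le_trans ?_ key
  have h3 : l * E ≤ l * m := mul_le_mul_of_nonneg_left (hET.trans hTm) hl0
  nlinarith [h3]

end Pool.Agent.Paley67
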