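import Pool.Agent.Work.MP_9d0e17_co.Robust2
import Pool.Agent.Work.MP_9d0e17_co.Transfer

set_option autoImplicit false

open Complex ComplexConjugate

namespace Pool.Agent.Paley67

variable {p : ℕ} [hp : Fact p.Prime]

/-- the quadratic form of the Paley matrix at a sign vector supported on `S` -/
noncomputable def qS (S : Finset (ZMod p)) (e : ZMod p → ℤ) : ℤ :=
  ∑ b ∈ S, ∑ a ∈ S, e b * e a * chi p (b - a)

theorem flat_quad (hp2 : p ≠ 2) (S : Finset (ZMod p)) (e : ZMod p → ℤ)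
    (he : ∀ a, e a = 1 ∨ e a = -1) (z : ℕ) (hz1 : 1 ≤ z) (hz : z + 2 ≤ S.card)
    (hpar : Even (S.card + z)) (hTp : S.card + z ≤ p - 1) :
    2 * Real.sqrt p * |(qS S e : ℝ)| ≤
      2 * S.card * p - (z * ((p : ℝ) - 1) - (S.card - 2) * (z : ℝ) ^ 2) := by
  classical
  set r := Real.sqrt p with hr
  have hr0 : 0 ≤ r := Real.sqrt_nonneg _
  have hrr : r * r = p := Real.mul_self_sqrt (Nat.cast_nonneg _)
  have main : ∀ σ : ℤ, (σ = 1 ∨ σ = -1) → 2 * r * ((σ : ℝ) * (qS S e : ℝ)) ≤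
      2 * S.card * p - (z * ((p : ℝ) - 1) - (S.card - 2) * (z : ℝ) ^ 2) := by
    intro σ hσ
    have hη : ∀ a, σ * e a = 1 ∨ σ * e a = -1 := by
      intro a
      rcases hσ with h | h <;> rcases he a with h' | h' <;> simp [h, h']
    have h1 := robust2_lin hp2 S S e (fun a => σ * e a) he hη z hz1 hz hpar hTp r hr0
    have h2 : ∑ b ∈ S, tau' S e (fun a => σ * e a) b = σ * qS S e := by
      unfold tau' qS
      rw [Finset.mul_sum]
      refine Finset.sum_congr rfl fun b _ => ?_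
      rw [Finset.mul_sum]
      refine Finset.sum_congr rfl fun a _ => ?_
      ring
    have h2' : ∑ b ∈ S, ((tau' S e (fun a => σ * e a) b : ℤ) : ℝ) = (σ : ℝ) * (qS S e : ℝ) := by
      exact_mod_cast h2
    have h3 : ∑ b ∈ S, (2 * r * ((tau' S e (fun a => σ * e a) b : ℤ) : ℝ) - r ^ 2 -
        ((zb S z b : ℤ) : ℝ) ^ 2) =
        2 * r * ((σ : ℝ) * (qS S e : ℝ)) - S.card * (r ^ 2 + ((z : ℝ) - 1) ^ 2) := by
      have h4 : ∀ b ∈ S, (2 * r * ((tau' S e (fun a => σ * e a) b : ℤ) : ℝ) - r ^ 2 -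
          ((zb S z b : ℤ) : ℝ) ^ 2) = 2 * r * ((tau' S e (fun a => σ * e a) b : ℤ) : ℝ) -
          (r ^ 2 + ((z : ℝ) - 1) ^ 2) := by
        intro b hb
        have : ((zb S z b : ℤ) : ℝ) = (z : ℝ) - 1 := by
          unfold zb; rw [if_pos hb]; push_cast; ring
        rw [this]; ring
      rw [Finset.sum_congr rfl h4, Finset.sum_sub_distrib, ← Finset.mul_sum, h2',
        Finset.sum_const, nsmul_eq_mul]
    rw [h3] at h1
    have h5 : r ^ 2 = p := by rw [sq, hrr]
    rw [h5] at h1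
    nlinarith [h1]
  rcases abs_cases (qS S e : ℝ) with h | h
  · rw [h.1]
    have := main 1 (Or.inl rfl)
    simpa using this
  · rw [h.1]
    have := main (-1) (Or.inr rfl)
    simpa using this

theorem flat_gersh (S : Finset (ZMod p)) (e : ZMod p → ℤ)
    (he : ∀ a, e a = 1 ∨ e a = -1) :
    |(qS S e : ℝ)| ≤ S.card * ((S.card : ℝ) - 1) := by
  classical
  have h1 : |qS S e| ≤ (S.card : ℤ) * ((S.card : ℤ) - 1) := by
    unfold qS
    refine (Finset.abs_sum_le_sum_abs _ _).trans ?_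
    have h2 : ∀ b ∈ S, |∑ a ∈ S, e b * e a * chi p (b - a)| ≤ (S.card : ℤ) - 1 := by
      intro b hb
      rw [← Finset.add_sum_erase _ _ hb]
      have h0 : chi p (b - b) = 0 := by rw [sub_self]; exact quadraticChar_zero
      rw [h0, mul_zero, zero_add]
      refine (Finset.abs_sum_le_sum_abs _ _).trans ?_
      have h3 : ∀ a ∈ S.erase b, |e b * e a * chi p (b - a)| ≤ 1 := by
        intro a ha
        have h4 : chi p (b - a) = 1 ∨ chi p (b - a) = -1 :=
          quadraticChar_dichotomy (sub_ne_zero.2 (Finset.mem_erase.1 ha).1.symm)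
        rcases he a with h | h <;> rcases he b with h' | h' <;> rcases h4 with h'' | h'' <;>
          rw [h, h', h''] <;> norm_num
      refine (Finset.sum_le_sum h3).trans ?_
      rw [Finset.sum_const, Finset.card_erase_of_mem hb, nsmul_eq_mul, mul_one,
        Nat.cast_sub (Finset.card_pos.2 ⟨b, hb⟩)]
      simp
    refine (Finset.sum_le_sum h2).trans ?_
    rw [Finset.sum_const, nsmul_eq_mul]
  exact_mod_cast h1

theorem exists_parity (x : ℝ) (hx : 3 / 2 ≤ x) (m : ℕ) :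
    ∃ z : ℕ, 1 ≤ z ∧ Even (m + z) ∧ |(z : ℝ) - x| ≤ 1 := by
  have h1 : (⌊x⌋₊ : ℝ) ≤ x := Nat.floor_le (by linarith)
  have h2 : x < ⌊x⌋₊ + 1 := Nat.lt_floor_add_one x
  have h3 : 1 ≤ ⌊x⌋₊ := Nat.le_floor (by push_cast; linarith)
  rcases Nat.even_or_odd (m + ⌊x⌋₊) with h | h
  · refine ⟨⌊x⌋₊, h3, h, ?_⟩
    rw [abs_le]; constructor <;> linarith
  · refine ⟨⌊x⌋₊ + 1, by omega, ?_, ?_⟩
    · rw [← add_assoc]; exact h.add_one
    · push_cast
      rw [abs_le]; constructor <;> linarith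

theorem flat_lower (hp100 : 100 ≤ p) (S : Finset (ZMod p)) (e : ZMod p → ℤ)
    (he : ∀ a, e a = 1 ∨ e a = -1) (hS : 3 * S.card ≤ p) :
    1 / 16 * min (S.card : ℝ) (p / S.card) ≤ S.card - |(qS S e : ℝ)| / Real.sqrt p := by
  have hp2 : p ≠ 2 := by omega
  have hp0 : (100 : ℝ) ≤ p := by exact_mod_cast hp100
  set r := Real.sqrt p with hr
  have hr10 : 10 ≤ r := by
    apply Real.le_sqrt_of_sq_le; norm_num; linarith
  have hrr : r * r = p := Real.mul_self_sqrt (Nat.cast_nonneg _)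
  have hr0 : 0 < r := by linarith
  set m := (S.card : ℝ) with hm
  have hm0 : 0 ≤ m := Nat.cast_nonneg _
  have hS' : 3 * m ≤ p := by rw [hm]; exact_mod_cast hS
  rcases le_or_gt (m - 1) (9 / 10 * r) with h | h
  · -- small sets
    have h1 := flat_gersh S e he
    rw [← hm] at h1
    have h2 : |(qS S e : ℝ)| / r ≤ m * (9 / 10) := by
      rw [div_le_iff₀ hr0]
      calc |(qS S e : ℝ)| ≤ m * (m - 1) := h1
        _ ≤ m * (9 / 10 * r) := mul_le_mul_of_nonneg_left h hm0
        _ = m * (9 / 10) * r := by ring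
    have h3 : min m (p / m) ≤ m := min_le_left _ _
    linarith
  · -- large sets
    have hm10 : 10 < m := by linarith
    have hm2 : 0 < m - 2 := by linarith
    set z0 := ((p : ℝ) - 1) / (2 * (m - 2)) with hz0
    have hz0e : z0 * (2 * (m - 2)) = (p : ℝ) - 1 := div_mul_cancel₀ _ (by positivity)
    have h32 : 3 / 2 ≤ z0 := by
      rw [hz0, le_div_iff₀ (by positivity)]
      linarith
    have hz0r : z0 ≤ 5 / 8 * r := by
      rw [hz0, div_le_iff₀ (by positivity)]
      nlinarith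
    obtain ⟨z, hz1, hpar, hzz⟩ := exists_parity z0 h32 S.card
    have hzabs := abs_le.1 hzz
    have hzm : z + 2 ≤ S.card := by
      have : ((z + 2 : ℕ) : ℝ) ≤ (S.card : ℝ) := by rw [← hm]; push_cast; linarith
      exact_mod_cast this
    have hzp : S.card + z ≤ p - 1 := by
      have : ((S.card + z + 1 : ℕ) : ℝ) ≤ (p : ℝ) := by
        push_cast
        rw [← hm]
        nlinarith
      have : S.card + z + 1 ≤ p := by exact_mod_cast this
      omega
    have h1 := flat_quad hp2 S e he z hz1 hzm hpar hzp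
    rw [← hr, ← hm] at h1
    -- the gain
    have hG : ((p : ℝ) - 1) ^ 2 / (8 * (m - 2)) ≤ z * ((p : ℝ) - 1) - (m - 2) * (z : ℝ) ^ 2 := by
      have h2 : z * ((p : ℝ) - 1) - (m - 2) * (z : ℝ) ^ 2 =
          (m - 2) * (z0 ^ 2 - ((z : ℝ) - z0) ^ 2) := by
        rw [← hz0e]; ring
      have h3 : ((z : ℝ) - z0) ^ 2 ≤ 1 := by
        rw [← sq_abs]; exact pow_le_one₀ (abs_nonneg _) hzz
      have h4 : ((p : ℝ) - 1) ^ 2 / (8 * (m - 2)) = (m - 2) * (z0 ^ 2 / 2) := by
        rw [← hz0e]; field_simp; ring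
      rw [h2, h4]
      apply mul_le_mul_of_nonneg_left _ hm2.le
      nlinarith
    have h5 : |(qS S e : ℝ)| / r ≤ m - ((p : ℝ) - 1) ^ 2 / (8 * (m - 2)) / (2 * p) := by
      rw [div_le_iff₀ hr0]
      have h6 : |(qS S e : ℝ)| * (2 * r) ≤
          (m - ((p : ℝ) - 1) ^ 2 / (8 * (m - 2)) / (2 * p)) * r * (2 * r) := by
        have h7 : (m - ((p : ℝ) - 1) ^ 2 / (8 * (m - 2)) / (2 * p)) * r * (2 * r) =
            2 * m * p - ((p : ℝ) - 1) ^ 2 / (8 * (m - 2)) := by
          have : (m - ((p : ℝ) - 1) ^ 2 / (8 * (m - 2)) / (2 * p)) * r * (2 * r) =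
            (m - ((p : ℝ) - 1) ^ 2 / (8 * (m - 2)) / (2 * p)) * 2 * (r * r) := by ring
          rw [this, hrr]
          field_simp
        rw [h7]
        linarith
      exact le_of_mul_le_mul_right h6 (by positivity)
    have h8 : 1 / 16 * (p / m) ≤ ((p : ℝ) - 1) ^ 2 / (8 * (m - 2)) / (2 * p) := by
      rw [div_div, div_mul_div_comm, div_le_div_iff₀ (by positivity) (by positivity)]
      nlinarith
    have h9 : min m (p / m) ≤ p / m := min_le_right _ _
    linarith

end Pool.Agent.Paley67
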