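import Pool.Agent.Work.MP_9d0e17_co.Flat

set_option autoImplicit false

open Complex ComplexConjugate

namespace Pool.Agent.Paley67

variable {p : ℕ} [hp : Fact p.Prime]

theorem cInt (n : ℤ) : conj (n : ℂ) = (n : ℂ) := map_intCast _ _

theorem chi_mul (a b : ZMod p) : chi p (a * b) = chi p a * chi p b := map_mul _ a b

theorem chi_sq {a : ZMod p} (ha : a ≠ 0) : chi p a * chi p a = 1 := by
  have : chi p a = 1 ∨ chi p a = -1 := quadraticChar_dichotomy ha
  rcases this with h | h <;> rw [h] <;> norm_num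

theorem moebius (hp4 : p % 4 = 1) (S : Finset (ZMod p)) (hS : S.card < p) (e : ZMod p → ℤ)
    (he : ∀ a, e a = 1 ∨ e a = -1) (τ : ℤ) (hτ : τ = 1 ∨ τ = -1) :
    ∃ (S' : Finset (ZMod p)) (e' : ZMod p → ℤ), S'.card = S.card + 1 ∧
      (∀ a, e' a = 1 ∨ e' a = -1) ∧ qS S' e' = qS S e + 2 * τ * ∑ a ∈ S, e a := by
  classical
  obtain ⟨c, hc⟩ : ∃ c, c ∉ S := by
    by_contra h
    push Not at h
    have h1 : S = Finset.univ := Finset.eq_univ_iff_forall.2 h
    rw [h1, Finset.card_univ, ZMod.card] at hS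
    exact lt_irrefl _ hS
  have hne : ∀ a ∈ S, a - c ≠ 0 := fun a ha h => hc (by rwa [← sub_eq_zero.1 h])
  let f : ZMod p → ZMod p := fun a => (a - c)⁻¹
  have hf0 : ∀ a ∈ S, f a ≠ 0 := fun a ha => inv_ne_zero (hne a ha)
  have hfinj : Set.InjOn f S := by
    intro a _ b _ hab
    have h1 : a - c = b - c := inv_injective hab
    exact sub_left_injective h1
  let e' : ZMod p → ℤ := fun y => if y = 0 then τ else chi p y * e (y⁻¹ + c)
  have he'0 : e' 0 = τ := if_pos rfl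
  have he'f : ∀ a ∈ S, e' (f a) = chi p (f a) * e a := by
    intro a ha
    show (if f a = 0 then τ else chi p (f a) * e ((f a)⁻¹ + c)) = _
    rw [if_neg (hf0 a ha)]
    have : (f a)⁻¹ + c = a := by
      show ((a - c)⁻¹)⁻¹ + c = a
      rw [inv_inv]; ring
    rw [this]
  have h0 : (0 : ZMod p) ∉ S.image f := by
    intro h
    obtain ⟨a, ha, h1⟩ := Finset.mem_image.1 h
    exact hf0 a ha h1
  refine ⟨insert 0 (S.image f), e', ?_, ?_, ?_⟩
  · rw [Finset.card_insert_of_notMem h0, Finset.card_image_of_injOn hfinj]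
  · intro y
    show (if y = 0 then τ else chi p y * e (y⁻¹ + c)) = 1 ∨
      (if y = 0 then τ else chi p y * e (y⁻¹ + c)) = -1
    split_ifs with h
    · exact hτ
    · have h1 : chi p y = 1 ∨ chi p y = -1 := quadraticChar_dichotomy h
      rcases h1 with h1 | h1 <;> rcases he (y⁻¹ + c) with h2 | h2 <;> simp [h1, h2]
  · have g00 : e' 0 * e' 0 * chi p (0 - 0) = 0 := by
      have : chi p (0 - 0) = 0 := by rw [sub_zero]; exact quadraticChar_zero
      rw [this, mul_zero]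
    have g0f : ∀ a ∈ S, e' 0 * e' (f a) * chi p (0 - f a) = τ * e a := by
      intro a ha
      rw [he'0, he'f a ha, zero_sub, chi_neg hp4]
      have := chi_sq (hf0 a ha)
      linear_combination (τ * e a) * this
    have gf0 : ∀ a ∈ S, e' (f a) * e' 0 * chi p (f a - 0) = τ * e a := by
      intro a ha
      rw [he'0, he'f a ha, sub_zero]
      have := chi_sq (hf0 a ha)
      linear_combination (τ * e a) * this
    have gff : ∀ b ∈ S, ∀ a ∈ S, e' (f b) * e' (f a) * chi p (f b - f a) =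
        e b * e a * chi p (b - a) := by
      intro b hb a ha
      have h1 : f b - f a = (a - b) * f b * f a := by
        show (b - c)⁻¹ - (a - c)⁻¹ = (a - b) * (b - c)⁻¹ * (a - c)⁻¹
        have h2 := hne a ha
        have h3 := hne b hb
        field_simp
        ring
      rw [he'f a ha, he'f b hb, h1, chi_mul, chi_mul, chi_sub_comm hp4 a b]
      have h4 := chi_sq (hf0 a ha)
      have h5 := chi_sq (hf0 b hb)
      linear_combination (e b * e a * chi p (b - a)) * (chi p (f b) * chi p (f b)) * h4 +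
        (e b * e a * chi p (b - a)) * h5
    unfold qS
    rw [Finset.sum_insert h0, Finset.sum_insert h0, g00, zero_add, Finset.sum_image hfinj,
      Finset.sum_image hfinj, Finset.sum_congr rfl g0f]
    have h6 : ∀ b ∈ S, ∑ a ∈ insert 0 (S.image f), e' (f b) * e' a * chi p (f b - a) =
        τ * e b + ∑ a ∈ S, e b * e a * chi p (b - a) := by
      intro b hb
      rw [Finset.sum_insert h0, gf0 b hb, Finset.sum_image hfinj,
        Finset.sum_congr rfl fun a ha => gff b hb a ha]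
    rw [Finset.sum_congr rfl h6, Finset.sum_add_distrib, ← Finset.mul_sum]
    ring

theorem Gs_real (hp4 : p % 4 = 1) : ∃ σ : ℤ, (σ = 1 ∨ σ = -1) ∧ Gs p = (σ : ℂ) * (Real.sqrt p : ℂ) := by
  have h1 := Gs_sq (p := p) hp4
  have hs2 : (Real.sqrt p : ℂ) ^ 2 = p := by
    rw [← Complex.ofReal_pow, Real.sq_sqrt (Nat.cast_nonneg _)]; simp
  rw [← hs2] at h1
  rcases sq_eq_sq_iff_eq_or_eq_neg.1 h1 with h | h
  · exact ⟨1, Or.inl rfl, by rw [h]; push_cast; ring⟩
  · exact ⟨-1, Or.inr rfl, by rw [h]; push_cast; ring⟩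

theorem nrm_int (hp4 : p % 4 = 1) : ∃ σ : ℤ, (σ = 1 ∨ σ = -1) ∧
    ∀ (S : Finset (ZMod p)) (τ : ℤ) (e : ZMod p → ℤ),
    (∀ a, e a = 1 ∨ e a = -1) →
    nrm S (τ : ℂ) (fun a => (e a : ℂ)) = (τ : ℝ) ^ 2 + S.card +
      (2 * τ * ((∑ a ∈ S, e a : ℤ) : ℝ) + σ * (qS S e : ℝ)) / Real.sqrt p := by
  obtain ⟨σ, hσ, hG⟩ := Gs_real (p := p) hp4
  refine ⟨σ, hσ, ?_⟩
  intro S τ e he
  have hp2 : p ≠ 2 := by omega
  have hp0 : (p : ℂ) ≠ 0 := by exact_mod_cast hp.out.ne_zero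
  have hs : (Real.sqrt p : ℂ) ≠ 0 := by
    rw [Ne, Complex.ofReal_eq_zero, Real.sqrt_eq_zero (Nat.cast_nonneg _)]
    exact_mod_cast hp.out.ne_zero
  have hs2 : (Real.sqrt p : ℂ) ^ 2 = p := by
    rw [← Complex.ofReal_pow, Real.sq_sqrt (Nat.cast_nonneg _)]; simp
  have h1 := nrm_eq hp2 S (τ : ℂ) (fun a => (e a : ℂ))
  have h2 : hat S (fun a => (e a : ℂ)) 0 = ((∑ a ∈ S, e a : ℤ) : ℂ) := by
    unfold hat
    push_cast
    refine Finset.sum_congr rfl fun a _ => ?_
    rw [zero_mul, AddChar.map_zero_eq_one, one_mul]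
  have h3 : qC S (fun a => (e a : ℂ)) = (qS S e : ℂ) := by
    unfold qC qS
    push_cast
    refine Finset.sum_congr rfl fun a _ => Finset.sum_congr rfl fun b _ => ?_
    rw [cInt]
    ring
  have h4 : ∑ a ∈ S, ((‖((e a : ℤ) : ℂ)‖ : ℝ) : ℂ) ^ 2 = (S.card : ℂ) := by
    have : ∀ a ∈ S, ((‖((e a : ℤ) : ℂ)‖ : ℝ) : ℂ) ^ 2 = 1 := by
      intro a _
      rcases he a with h | h <;> rw [h] <;> simp
    rw [Finset.sum_congr rfl this, Finset.sum_const, nsmul_eq_mul, mul_one]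
  have h5 : ((‖((τ : ℤ) : ℂ)‖ : ℝ) : ℂ) ^ 2 = (τ : ℂ) ^ 2 := by
    rw [← Complex.mul_conj', cInt, sq]
  rw [h2, h3, h4, h5, hG, cInt, cInt] at h1
  apply Complex.ofReal_injective
  rw [h1]
  push_cast
  rw [← hs2]
  field_simp
  ring

theorem flat_frame (hp4 : p % 4 = 1) (hp100 : 100 ≤ p) (S : Finset (ZMod p)) (e : ZMod p → ℤ)
    (he : ∀ a, e a = 1 ∨ e a = -1) (τ : ℤ) (m : ℕ)
    (hτ : (τ = 0 ∧ m = S.card) ∨ ((τ = 1 ∨ τ = -1) ∧ m = S.card + 1)) (hm : 3 * m ≤ p) :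
    1 / 16 * min (m : ℝ) (p / m) ≤ nrm S (τ : ℂ) (fun a => (e a : ℂ)) := by
  obtain ⟨σ, hσ, hn⟩ := nrm_int (p := p) hp4
  rw [hn S τ e he]
  have hr0 : 0 < Real.sqrt (p : ℝ) := Real.sqrt_pos.2 (by exact_mod_cast hp.out.pos)
  rcases hτ with ⟨h0, rfl⟩ | ⟨h1, rfl⟩
  · have h2 := flat_lower hp100 S e he hm
    refine h2.trans ?_
    rw [h0]
    have h3 : -(|(qS S e : ℝ)| / Real.sqrt p) ≤ (σ * (qS S e : ℝ)) / Real.sqrt p := by
      rw [← neg_div]
      apply div_le_div_of_nonneg_right _ hr0.le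
      have h4 := neg_abs_le (qS S e : ℝ)
      have h5 := le_abs_self (qS S e : ℝ)
      rcases hσ with h | h <;> rw [h] <;> push_cast <;> linarith
    push_cast
    have h6 : (2 * 0 * (∑ a ∈ S, (e a : ℝ)) + (σ : ℝ) * (qS S e : ℝ)) / Real.sqrt p =
      (σ * (qS S e : ℝ)) / Real.sqrt p := by ring
    rw [h6]
    linarith
  · have hσσ : σ * σ = 1 := by rcases hσ with h | h <;> rw [h] <;> norm_num
    have hστ : σ * τ = 1 ∨ σ * τ = -1 := by
      rcases hσ with h | h <;> rcases h1 with h' | h' <;> simp [h, h']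
    obtain ⟨S', e', hc, he', hq⟩ := moebius hp4 S (by omega) e he (σ * τ) hστ
    have h2 := flat_lower hp100 S' e' he' (by rw [hc]; exact hm)
    rw [hc] at h2
    refine h2.trans ?_
    have h3 : -(|(qS S' e' : ℝ)| / Real.sqrt p) ≤ (σ * (qS S' e' : ℝ)) / Real.sqrt p := by
      rw [← neg_div]
      apply div_le_div_of_nonneg_right _ hr0.le
      have h4 := neg_abs_le (qS S' e' : ℝ)
      have h5 := le_abs_self (qS S' e' : ℝ)
      rcases hσ with h | h <;> rw [h] <;> push_cast <;> linarith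
    have h7 : (σ : ℝ) * (qS S' e' : ℝ) = 2 * τ * ((∑ a ∈ S, e a : ℤ) : ℝ) + σ * (qS S e : ℝ) := by
      have : σ * qS S' e' = 2 * τ * (∑ a ∈ S, e a) + σ * qS S e := by
        rw [hq]; linear_combination (2 * τ * ∑ a ∈ S, e a) * hσσ
      exact_mod_cast this
    rw [← h7]
    have h8 : (τ : ℝ) ^ 2 = 1 := by
      rcases h1 with h | h <;> rw [h] <;> norm_num
    rw [h8]
    push_cast
    linarith

theorem card_resSet_eq (S : Finset ℕ) (hS : S ⊆ Finset.range (p + 1)) :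
    (resSet p S).card = (S.erase p).card := by
  have h := sum_resSet (M := ℕ) S hS (fun _ => 1)
  simpa using h

end Pool.Agent.Paley67
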