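import Pool.Agent.Work.MP_9d0e17_co.Quad

set_option autoImplicit false

open Complex ComplexConjugate

namespace Pool.Agent.Paley67

variable {p : ℕ} [hp : Fact p.Prime]

noncomputable abbrev psi (p : ℕ) [Fact p.Prime] : AddChar (ZMod p) ℂ := ZMod.stdAddChar

noncomputable def chiC (p : ℕ) [Fact p.Prime] : MulChar (ZMod p) ℂ :=
  (quadraticChar (ZMod p)).ringHomComp (Int.castRingHom ℂ)

theorem chiC_apply (a : ZMod p) : chiC p a = ((chi p a : ℤ) : ℂ) := rfl

noncomputable def Gs (p : ℕ) [Fact p.Prime] : ℂ := gaussSum (chiC p) (psi p)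

theorem chiC_ne_one (hp2 : p ≠ 2) : chiC p ≠ 1 := by
  have h : ringChar (ZMod p) ≠ 2 := by
    rw [ZMod.ringChar_zmod_n]; exact hp2
  obtain ⟨a, ha⟩ := quadraticChar_exists_neg_one' h
  intro hχ
  have h1 : chiC p a = 1 := by rw [hχ]; exact MulChar.one_apply a.isUnit
  rw [chiC_apply] at h1
  have h2 : chi p a = -1 := ha
  rw [h2] at h1
  norm_num at h1

theorem chiC_quad : (chiC p).IsQuadratic := (quadraticChar_isQuadratic (ZMod p)).comp _

theorem Gs_sq (hp4 : p % 4 = 1) : Gs p ^ 2 = p := by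
  have hp2 : p ≠ 2 := by omega
  have h := gaussSum_sq (χ := chiC p) (ψ := psi p) (chiC_ne_one hp2) chiC_quad
    (ZMod.isPrimitive_stdAddChar p)
  rw [chiC_apply] at h
  have h1 : chi p (-1) = 1 := by
    rw [chi_neg hp4]
    show quadraticChar (ZMod p) 1 = 1
    exact map_one _
  rw [h1, ZMod.card] at h
  unfold Gs
  rw [h]
  norm_num

theorem Gs_norm (hp4 : p % 4 = 1) : ‖Gs p‖ = Real.sqrt p := by
  have h := congrArg norm (Gs_sq (p := p) hp4)
  rw [norm_pow, Complex.norm_natCast] at h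
  rw [← h, Real.sqrt_sq (norm_nonneg _)]

theorem sum_chi_psi (hp2 : p ≠ 2) (a : ZMod p) :
    ∑ r : ZMod p, ((chi p r : ℤ) : ℂ) * psi p (r * a) = ((chi p a : ℤ) : ℂ) * Gs p := by
  rcases eq_or_ne a 0 with rfl | ha
  · have h1 : ∑ r : ZMod p, chiC p r = 0 := MulChar.sum_eq_zero_of_ne_one (chiC_ne_one hp2)
    have h2 : ∑ r : ZMod p, ((chi p r : ℤ) : ℂ) * psi p (r * 0) = ∑ r : ZMod p, chiC p r := by
      refine Finset.sum_congr rfl fun r _ => ?_
      rw [mul_zero, AddChar.map_zero_eq_one, mul_one]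
      rfl
    rw [h2, h1]
    simp
  · have h1 := gaussSum_mulShift (chiC p) (psi p) (Units.mk0 a ha)
    rw [Units.val_mk0] at h1
    have h2 : gaussSum (chiC p) (AddChar.mulShift (psi p) a) =
        ∑ r : ZMod p, ((chi p r : ℤ) : ℂ) * psi p (r * a) := by
      unfold gaussSum
      refine Finset.sum_congr rfl fun r _ => ?_
      rw [AddChar.mulShift_apply, mul_comm a r]
      rfl
    rw [h2] at h1
    have h3 : ((chi p a : ℤ) : ℂ) * ((chi p a : ℤ) : ℂ) = 1 := by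
      have : chi p a = 1 ∨ chi p a = -1 := quadraticChar_dichotomy ha
      rcases this with h | h <;> rw [h] <;> norm_num
    have h4 : ((chi p a : ℤ) : ℂ) * (∑ r : ZMod p, ((chi p r : ℤ) : ℂ) * psi p (r * a)) = Gs p := h1
    rw [← h4, ← mul_assoc, h3, one_mul]

/-- restricted Fourier transform -/
noncomputable def hat (S : Finset (ZMod p)) (x : ZMod p → ℂ) (r : ZMod p) : ℂ :=
  ∑ a ∈ S, psi p (r * a) * x a

theorem hat_sq (S : Finset (ZMod p)) (x : ZMod p → ℂ) (r : ZMod p) :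
    ((‖hat S x r‖ : ℝ) : ℂ) ^ 2 =
      ∑ a ∈ S, ∑ b ∈ S, psi p (r * (a - b)) * (x a * conj (x b)) := by
  rw [← Complex.mul_conj']
  unfold hat
  rw [map_sum, Finset.sum_mul_sum]
  refine Finset.sum_congr rfl fun a _ => Finset.sum_congr rfl fun b _ => ?_
  rw [map_mul (starRingEnd ℂ), ← AddChar.map_neg_eq_conj]
  have h1 : psi p (r * (a - b)) = psi p (r * a) * psi p (-(r * b)) := by
    rw [← AddChar.map_add_eq_mul]; congr 1; ring
  rw [h1]; ring

noncomputable def qC (S : Finset (ZMod p)) (x : ZMod p → ℂ) : ℂ :=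
  ∑ a ∈ S, ∑ b ∈ S, ((chi p (a - b) : ℤ) : ℂ) * (x a * conj (x b))

theorem parseval (S : Finset (ZMod p)) (x : ZMod p → ℂ) :
    ∑ r : ZMod p, ((‖hat S x r‖ : ℝ) : ℂ) ^ 2 = p * ∑ a ∈ S, ((‖x a‖ : ℝ) : ℂ) ^ 2 := by
  classical
  rw [Finset.sum_congr rfl fun r _ => hat_sq S x r, Finset.sum_comm, Finset.mul_sum]
  refine Finset.sum_congr rfl fun a ha => ?_
  rw [Finset.sum_comm]
  have h1 : ∀ b ∈ S, ∑ r : ZMod p, psi p (r * (a - b)) * (x a * conj (x b)) =
      if a = b then (p : ℂ) * (x a * conj (x b)) else 0 := by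
    intro b _
    rw [← Finset.sum_mul, AddChar.sum_mulShift _ (ZMod.isPrimitive_stdAddChar p)]
    by_cases h : a = b
    · rw [if_pos (sub_eq_zero.2 h), if_pos h, ZMod.card]
    · rw [if_neg (sub_ne_zero.2 h), if_neg h]; simp
  rw [Finset.sum_congr rfl h1, Finset.sum_ite_eq S a, if_pos ha, Complex.mul_conj']

theorem chi_hat (hp2 : p ≠ 2) (S : Finset (ZMod p)) (x : ZMod p → ℂ) :
    ∑ r : ZMod p, ((chi p r : ℤ) : ℂ) * ((‖hat S x r‖ : ℝ) : ℂ) ^ 2 = Gs p * qC S x := by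
  classical
  have h0 : ∀ r : ZMod p, ((chi p r : ℤ) : ℂ) * ((‖hat S x r‖ : ℝ) : ℂ) ^ 2 =
      ∑ a ∈ S, ∑ b ∈ S, (((chi p r : ℤ) : ℂ) * psi p (r * (a - b))) * (x a * conj (x b)) := by
    intro r
    rw [hat_sq, Finset.mul_sum]
    refine Finset.sum_congr rfl fun a _ => ?_
    rw [Finset.mul_sum]
    refine Finset.sum_congr rfl fun b _ => ?_
    ring
  rw [Finset.sum_congr rfl fun r _ => h0 r, Finset.sum_comm, qC, Finset.mul_sum]
  refine Finset.sum_congr rfl fun a _ => ?_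
  rw [Finset.sum_comm, Finset.mul_sum]
  refine Finset.sum_congr rfl fun b _ => ?_
  rw [← Finset.sum_mul, sum_chi_psi hp2]
  ring

theorem sum_squares (f : ZMod p → ℂ) :
    ∑ z ∈ Finset.univ.filter (fun z : ZMod p => chi p z = 1), f z =
      ((∑ z, f z) + (∑ z, ((chi p z : ℤ) : ℂ) * f z) - f 0) / 2 := by
  classical
  have h1 : ∀ z : ZMod p, (if chi p z = 1 then f z else 0) =
      (f z + ((chi p z : ℤ) : ℂ) * f z) / 2 - (if z = 0 then f z else 0) / 2 := by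
    intro z
    rcases eq_or_ne z 0 with rfl | hz
    · simp
    · have : chi p z = 1 ∨ chi p z = -1 := quadraticChar_dichotomy hz
      rcases this with h | h
      · rw [h, if_pos rfl, if_neg hz]; push_cast; ring
      · rw [h, if_neg (by norm_num), if_neg hz]; push_cast; ring
  rw [Finset.sum_filter, Finset.sum_congr rfl fun z _ => h1 z, Finset.sum_sub_distrib,
    ← Finset.sum_div, ← Finset.sum_div, Finset.sum_add_distrib, Finset.sum_ite_eq' Finset.univ]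
  simp only [Finset.mem_univ, if_true]
  ring

/-- squared norm of the synthesis vector, in terms of the restricted Fourier transform -/
noncomputable def nrm (S : Finset (ZMod p)) (w : ℂ) (x : ZMod p → ℂ) : ℝ :=
  ‖w + hat S x 0 / (Real.sqrt p : ℂ)‖ ^ 2 +
    2 / p * ∑ z ∈ Finset.univ.filter (fun z : ZMod p => chi p z = 1), ‖hat S x z‖ ^ 2

theorem nrm_eq (hp2 : p ≠ 2) (S : Finset (ZMod p)) (w : ℂ) (x : ZMod p → ℂ) :
    ((nrm S w x : ℝ) : ℂ) = (‖w‖ : ℂ) ^ 2 +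
      (w * conj (hat S x 0) + conj w * hat S x 0) / (Real.sqrt p : ℂ) +
      ∑ a ∈ S, ((‖x a‖ : ℝ) : ℂ) ^ 2 + Gs p * qC S x / p := by
  have hp0 : (p : ℂ) ≠ 0 := by exact_mod_cast hp.out.ne_zero
  have hs : (Real.sqrt p : ℂ) ≠ 0 := by
    rw [Ne, Complex.ofReal_eq_zero, Real.sqrt_eq_zero (Nat.cast_nonneg _)]
    exact_mod_cast hp.out.ne_zero
  have hs2 : (Real.sqrt p : ℂ) ^ 2 = p := by
    rw [← Complex.ofReal_pow, Real.sq_sqrt (Nat.cast_nonneg _)]; simp
  have h1 : ((‖w + hat S x 0 / (Real.sqrt p : ℂ)‖ : ℝ) : ℂ) ^ 2 = (‖w‖ : ℂ) ^ 2 +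
      (w * conj (hat S x 0) + conj w * hat S x 0) / (Real.sqrt p : ℂ) +
      ((‖hat S x 0‖ : ℝ) : ℂ) ^ 2 / p := by
    rw [← Complex.mul_conj', ← Complex.mul_conj', ← Complex.mul_conj', map_add, map_div₀,
      Complex.conj_ofReal, ← hs2]
    field_simp
    ring
  have h2 : ∑ z ∈ Finset.univ.filter (fun z : ZMod p => chi p z = 1),
      ((‖hat S x z‖ : ℝ) : ℂ) ^ 2 = ((p * ∑ a ∈ S, ((‖x a‖ : ℝ) : ℂ) ^ 2) + Gs p * qC S x -
        ((‖hat S x 0‖ : ℝ) : ℂ) ^ 2) / 2 := by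
    rw [sum_squares, parseval, chi_hat hp2]
  unfold nrm
  push_cast
  rw [h1, h2]
  field_simp
  ring

end Pool.Agent.Paley67
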