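import Pool.Agent.Work.MP_9d0e17_co.Fourier

set_option autoImplicit false

open Complex ComplexConjugate

namespace Pool.Agent.Paley67

variable {p : ℕ} [hp : Fact p.Prime]

theorem qC_norm (hp4 : p % 4 = 1) (S : Finset (ZMod p)) (t : ℝ)
    (h : ∀ x : ZMod p → ℝ, |∑ a ∈ S, ∑ b ∈ S, (chi p (a - b) : ℝ) * x a * x b| ≤
      t * ∑ a ∈ S, x a ^ 2) (x : ZMod p → ℂ) :
    ‖qC S x‖ ≤ t * ∑ a ∈ S, ‖x a‖ ^ 2 := by
  have h1 : qC S x = (((∑ a ∈ S, ∑ b ∈ S, (chi p (a - b) : ℝ) * (x a).re * (x b).re) +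
      (∑ a ∈ S, ∑ b ∈ S, (chi p (a - b) : ℝ) * (x a).im * (x b).im) : ℝ) : ℂ) := by
    have h2 : ∑ a ∈ S, ∑ b ∈ S, (chi p (a - b) : ℝ) * ((x a).im * (x b).re) =
        ∑ a ∈ S, ∑ b ∈ S, (chi p (a - b) : ℝ) * ((x a).re * (x b).im) := by
      rw [Finset.sum_comm]
      refine Finset.sum_congr rfl fun a _ => Finset.sum_congr rfl fun b _ => ?_
      rw [chi_sub_comm hp4 b a]; ring
    unfold qC
    apply Complex.ext
    · rw [Complex.ofReal_re, ← Finset.sum_add_distrib, Complex.re_sum]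
      refine Finset.sum_congr rfl fun a _ => ?_
      rw [← Finset.sum_add_distrib, Complex.re_sum]
      refine Finset.sum_congr rfl fun b _ => ?_
      simp only [Complex.mul_re, Complex.intCast_re, Complex.intCast_im, Complex.conj_re,
        Complex.conj_im, Complex.mul_im]
      ring
    · rw [Complex.ofReal_im, Complex.im_sum]
      have h3 : ∀ a ∈ S, (∑ b ∈ S, ((chi p (a - b) : ℤ) : ℂ) * (x a * conj (x b))).im =
          (∑ b ∈ S, (chi p (a - b) : ℝ) * ((x a).im * (x b).re)) -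
          ∑ b ∈ S, (chi p (a - b) : ℝ) * ((x a).re * (x b).im) := by
        intro a _
        rw [Complex.im_sum, ← Finset.sum_sub_distrib]
        refine Finset.sum_congr rfl fun b _ => ?_
        simp only [Complex.mul_re, Complex.intCast_re, Complex.intCast_im, Complex.conj_re,
          Complex.conj_im, Complex.mul_im]
        ring
      rw [Finset.sum_congr rfl h3, Finset.sum_sub_distrib, h2, sub_self]
  rw [h1, Complex.norm_real, Real.norm_eq_abs]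
  have h4 := h fun a => (x a).re
  have h5 := h fun a => (x a).im
  have h6 : ∑ a ∈ S, ‖x a‖ ^ 2 = ∑ a ∈ S, (x a).re ^ 2 + ∑ a ∈ S, (x a).im ^ 2 := by
    rw [← Finset.sum_add_distrib]
    refine Finset.sum_congr rfl fun a _ => ?_
    rw [← Complex.normSq_eq_norm_sq, Complex.normSq_apply]; ring
  rw [h6, mul_add]
  exact (abs_add_le _ _).trans (add_le_add h4 h5)

theorem hat_zero_sq (S : Finset (ZMod p)) (x : ZMod p → ℂ) :
    ‖hat S x 0‖ ^ 2 ≤ S.card * ∑ a ∈ S, ‖x a‖ ^ 2 := by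
  have h1 : hat S x 0 = ∑ a ∈ S, x a := by
    unfold hat
    refine Finset.sum_congr rfl fun a _ => ?_
    rw [zero_mul, AddChar.map_zero_eq_one, one_mul]
  rw [h1]
  have h2 : ‖∑ a ∈ S, x a‖ ≤ ∑ a ∈ S, ‖x a‖ := norm_sum_le _ _
  have h3 : (∑ a ∈ S, ‖x a‖) ^ 2 ≤ S.card * ∑ a ∈ S, ‖x a‖ ^ 2 := sq_sum_le_card_mul_sum_sq
  exact (pow_le_pow_left₀ (norm_nonneg _) h2 2).trans h3

theorem nrm_bounds (hp4 : p % 4 = 1) (S : Finset (ZMod p)) (δ : ℝ) (hδ : 0 < δ) (hδ1 : δ ≤ 1)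
    (h : ∀ x : ZMod p → ℝ, |∑ a ∈ S, ∑ b ∈ S, (chi p (a - b) : ℝ) * x a * x b| ≤
      (1 - δ) * Real.sqrt p * ∑ a ∈ S, x a ^ 2)
    (hS : 4 * (S.card : ℝ) ≤ δ ^ 2 * p) (w : ℂ) (x : ZMod p → ℂ) :
    δ / 2 * (‖w‖ ^ 2 + ∑ a ∈ S, ‖x a‖ ^ 2) ≤ nrm S w x ∧
      nrm S w x ≤ 3 * (‖w‖ ^ 2 + ∑ a ∈ S, ‖x a‖ ^ 2) := by
  have hp2 : p ≠ 2 := by omega
  have hp0 : (0 : ℝ) < p := by exact_mod_cast hp.out.pos
  set N := ∑ a ∈ S, ‖x a‖ ^ 2 with hN
  have hN0 : 0 ≤ N := Finset.sum_nonneg fun _ _ => sq_nonneg _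
  set r := Real.sqrt p with hr
  have hr0 : 0 < r := Real.sqrt_pos.2 hp0
  have hrr : r * r = p := Real.mul_self_sqrt hp0.le
  have hq := qC_norm hp4 S ((1 - δ) * r) h x
  rw [← hN] at hq
  -- the real identity
  have h1 := nrm_eq hp2 S w x
  have h2 : nrm S w x = ‖w‖ ^ 2 + ((w * conj (hat S x 0) + conj w * hat S x 0) / (r : ℂ)).re +
      N + (Gs p * qC S x / p).re := by
    have h3 := congrArg Complex.re h1
    rw [Complex.ofReal_re, Complex.add_re, Complex.add_re, Complex.add_re] at h3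
    rw [h3]
    congr 2
    · congr 1
      rw [← Complex.ofReal_pow, Complex.ofReal_re]
    · rw [hN, Complex.re_sum]
      refine Finset.sum_congr rfl fun a _ => ?_
      rw [← Complex.ofReal_pow, Complex.ofReal_re]
  have h4 : |(Gs p * qC S x / p).re| ≤ (1 - δ) * N := by
    refine (Complex.abs_re_le_norm _).trans ?_
    rw [norm_div, norm_mul, Gs_norm hp4, Complex.norm_natCast, div_le_iff₀ hp0]
    calc Real.sqrt p * ‖qC S x‖ ≤ r * ((1 - δ) * r * N) := mul_le_mul_of_nonneg_left hq hr0.le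
      _ = (1 - δ) * N * (r * r) := by ring
      _ = (1 - δ) * N * p := by rw [hrr]
  have h5 : |((w * conj (hat S x 0) + conj w * hat S x 0) / (r : ℂ)).re| ≤
      2 * (‖w‖ * ‖hat S x 0‖) / r := by
    refine (Complex.abs_re_le_norm _).trans ?_
    rw [norm_div, Complex.norm_real, Real.norm_eq_abs, abs_of_pos hr0]
    apply div_le_div_of_nonneg_right _ hr0.le
    refine (norm_add_le _ _).trans ?_
    rw [norm_mul, norm_mul, Complex.norm_conj, Complex.norm_conj]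
    linarith
  have h6 : 2 * (‖w‖ * ‖hat S x 0‖) / r ≤ δ / 2 * ‖w‖ ^ 2 + δ / 2 * N := by
    have h7 := hat_zero_sq S x
    rw [← hN] at h7
    set v := ‖hat S x 0‖ / r with hv
    have h8 : 2 * (‖w‖ * ‖hat S x 0‖) / r = 2 * ‖w‖ * v := by
      rw [hv]; ring
    rw [h8]
    have h9 : v ^ 2 ≤ δ ^ 2 / 4 * N := by
      rw [hv, div_pow, div_le_iff₀ (by positivity)]
      have h10 : r ^ 2 = p := by rw [sq, hrr]
      rw [h10]
      calc ‖hat S x 0‖ ^ 2 ≤ S.card * N := h7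
        _ ≤ (δ ^ 2 * p / 4) * N := mul_le_mul_of_nonneg_right (by linarith) hN0
        _ = δ ^ 2 / 4 * N * p := by ring
    -- 2 u v <= (δ/2) u^2 + (2/δ) v^2
    have h11 : 2 * ‖w‖ * v ≤ δ / 2 * ‖w‖ ^ 2 + 2 / δ * v ^ 2 := by
      have h12 : δ / 2 * ‖w‖ ^ 2 + 2 / δ * v ^ 2 - 2 * ‖w‖ * v =
          (δ * ‖w‖ - 2 * v) ^ 2 / (2 * δ) := by
        field_simp; ring
      have h13 : 0 ≤ (δ * ‖w‖ - 2 * v) ^ 2 / (2 * δ) := by positivity
      linarith
    have h14 : 2 / δ * v ^ 2 ≤ δ / 2 * N := by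
      calc 2 / δ * v ^ 2 ≤ 2 / δ * (δ ^ 2 / 4 * N) := mul_le_mul_of_nonneg_left h9 (by positivity)
        _ = δ / 2 * N := by field_simp; ring
    linarith
  have h7 := abs_le.1 h4
  have h8 := abs_le.1 (h5.trans h6)
  have hw0 : 0 ≤ ‖w‖ ^ 2 := sq_nonneg _
  rw [h2]
  constructor
  · nlinarith [h7.1, h8.1, mul_nonneg hδ.le hw0]
  · nlinarith [h7.2, h8.2, mul_nonneg hδ.le hw0, mul_nonneg hδ.le hN0]

end Pool.Agent.Paley67
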