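import Mathlib

set_option autoImplicit false

namespace Pool.Agent.Paley67

/-- pure real algebra: the contradiction inequality -/
theorem contra_real (c k δ r m I s l z D : ℝ) (hc1 : 1 ≤ c)
    (hk : k = 1 / (4 * c) - (c - 1) / 2) (hδpos : 0 < δ)
    (hδ20 : δ ≤ 1 / 20) (hδk : δ * (1 + 4 * c) = k) (hr20 : 20 ≤ r)
    (hm : m ≤ c * r) (hl : (1 - δ) * r < l) (hlI : l + 1 ≤ I)
    (hIm : I ≤ m) (hsm : s ≤ m) (hs1 : z + 2 ≤ s) (hsD : 0 ≤ s - D) (hD : D ≤ (m - I) / 2)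
    (hz1 : r / (2 * c) ≤ z) (hz2 : z ≤ r / (2 * c) + 2)
    (key : l ^ 2 * (s - D) - 2 * l * m - m * z ^ 2 ≤ (s - z) * (r ^ 2 - 1 + 2 * z)) :
    r * (k / 2) ≤ 2 * c ^ 2 + 9 * c := by
  have hc0 : 0 < c := by linarith only [hc1]
  have hr0 : 0 < r := by linarith only [hr20]
  have hw0 : 0 ≤ r / (2 * c) := by positivity
  have hz0 : 0 ≤ z := hw0.trans hz1
  have hs0 : 0 ≤ s := by linarith only [hs1, hz0]
  have hm0 : 0 ≤ m := hs0.trans hsm
  have hwr : r / (2 * c) ≤ r / 2 := by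
    apply div_le_div_of_nonneg_left hr0.le (by norm_num) (by linarith only [hc1])
  have hl2 : (1 - 2 * δ) * r ^ 2 ≤ l ^ 2 := by
    have h0 : 0 ≤ (1 - δ) * r := mul_nonneg (by linarith only [hδ20]) hr0.le
    have h1 : ((1 - δ) * r) ^ 2 ≤ l ^ 2 := pow_le_pow_left₀ h0 hl.le 2
    have h2 : ((1 - δ) * r) ^ 2 = (1 - 2 * δ) * r ^ 2 + (δ * r) ^ 2 := by ring
    have h3 := sq_nonneg (δ * r)
    linarith only [h1, h2, h3]
  have h1 : (1 - 2 * δ) * r ^ 2 * (s - D) ≤ l ^ 2 * (s - D) :=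
    mul_le_mul_of_nonneg_right hl2 hsD
  have h2 : (1 - 2 * δ) * r ^ 2 * ((m - I) / 2) ≤ r ^ 2 * ((m - I) / 2) := by
    have h5 : 0 ≤ r ^ 2 * ((m - I) / 2) := mul_nonneg (sq_nonneg _) (by linarith only [hIm])
    have h6 : 0 ≤ δ * (r ^ 2 * ((m - I) / 2)) := mul_nonneg hδpos.le h5
    have h7 : (1 - 2 * δ) * r ^ 2 * ((m - I) / 2) = r ^ 2 * ((m - I) / 2) -
      2 * (δ * (r ^ 2 * ((m - I) / 2))) := by ring
    linarith only [h6, h7]
  have h3 : (1 - 2 * δ) * r ^ 2 * D ≤ (1 - 2 * δ) * r ^ 2 * ((m - I) / 2) :=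
    mul_le_mul_of_nonneg_left hD (mul_nonneg (by linarith only [hδ20]) (sq_nonneg _))
  have h4 : z * r ^ 2 - m * z ^ 2 ≤
      2 * δ * r ^ 2 * s + r ^ 2 * ((m - I) / 2) + 2 * l * m + 2 * z * s := by
    have hz2 : 0 ≤ z ^ 2 := sq_nonneg _
    have e1 : (s - z) * (r ^ 2 - 1 + 2 * z) =
      s * r ^ 2 - z * r ^ 2 - (s - z) + 2 * z * s - 2 * z ^ 2 := by ring
    have e2 : (1 - 2 * δ) * r ^ 2 * (s - D) = s * r ^ 2 - 2 * δ * r ^ 2 * s -
      (1 - 2 * δ) * r ^ 2 * D := by ring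
    linarith only [key, h1, h2, h3, hs1, hz2, e1, e2]
  have hlm : l ≤ c * r := by linarith only [hlI, hIm, hm]
  have hl0 : 0 ≤ l := by
    have : 0 ≤ (1 - δ) * r := mul_nonneg (by linarith only [hδ20]) hr0.le
    linarith only [this, hl]
  have h5 : 2 * l * m ≤ 2 * c ^ 2 * r ^ 2 := by
    have h6 : l * m ≤ (c * r) * (c * r) := mul_le_mul hlm hm hm0 (by positivity)
    have h7 : (c * r) * (c * r) = c ^ 2 * r ^ 2 := by ring
    linarith only [h6, h7]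
  have hscr : s ≤ c * r := hsm.trans hm
  have h6 : 2 * z * s ≤ 2 * (r / 2 + 2) * (c * r) := by
    have h7 : z * s ≤ (r / 2 + 2) * (c * r) :=
      mul_le_mul (by linarith only [hz2, hwr]) hscr hs0 (by positivity)
    linarith only [h7]
  have h7 : 2 * δ * r ^ 2 * s ≤ 2 * δ * r ^ 2 * (c * r) :=
    mul_le_mul_of_nonneg_left hscr (by positivity)
  have h8 : r ^ 2 * ((m - I) / 2) ≤ r ^ 2 * ((c * r - (1 - δ) * r) / 2) :=
    mul_le_mul_of_nonneg_left (by linarith only [hm, hl, hlI]) (sq_nonneg _)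
  have h9 : m * z ^ 2 ≤ c * r * z ^ 2 := mul_le_mul_of_nonneg_right hm (sq_nonneg _)
  obtain ⟨θ, hθ⟩ : ∃ θ : ℝ, z = r / (2 * c) + θ := ⟨z - r / (2 * c), by ring⟩
  have hθ0 : 0 ≤ θ := by linarith only [hθ, hz1]
  have hθ2 : θ ≤ 2 := by linarith only [hθ, hz2]
  have h10 : z * r ^ 2 - c * r * z ^ 2 = r ^ 3 / (4 * c) - c * r * θ ^ 2 := by
    rw [hθ]; field_simp; ring
  have h11 : θ ^ 2 ≤ 4 := by nlinarith only [hθ0, hθ2]
  have h12 : c * r * θ ^ 2 ≤ c * r * 4 := mul_le_mul_of_nonneg_left h11 (by positivity)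
  have h13 : r ^ 3 / (4 * c) = r ^ 3 * (k + (c - 1) / 2) := by
    rw [hk]; field_simp; ring
  have h14 : r ^ 3 * (k / 2) ≤ (2 * c ^ 2 + c) * r ^ 2 + 8 * c * r := by
    have e3 : r ^ 3 * (k / 2) = r ^ 3 * k - r ^ 3 * (δ * (1 + 4 * c)) / 2 := by
      rw [hδk]; ring
    have e4 : r ^ 3 * (δ * (1 + 4 * c)) / 2 = r ^ 3 * δ / 2 + 2 * δ * c * r ^ 3 := by ring
    have e5 : 2 * δ * r ^ 2 * (c * r) = 2 * δ * c * r ^ 3 := by ring
    have e6 : r ^ 2 * ((c * r - (1 - δ) * r) / 2) = r ^ 3 * ((c - 1) / 2) + r ^ 3 * δ / 2 := by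
      ring
    have e7 : 2 * (r / 2 + 2) * (c * r) = c * r ^ 2 + 4 * c * r := by ring
    have e8 : r ^ 3 * (k + (c - 1) / 2) = r ^ 3 * k + r ^ 3 * ((c - 1) / 2) := by ring
    have e9 : (2 * c ^ 2 + c) * r ^ 2 = 2 * c ^ 2 * r ^ 2 + c * r ^ 2 := by ring
    linarith only [h4, h5, h6, h7, h8, h9, h10, h12, h13, e3, e4, e5, e6, e7, e8, e9]
  have h15 : r ^ 3 * (k / 2) ≤ (2 * c ^ 2 + 9 * c) * r ^ 2 := by
    have h16 : r ≤ r ^ 2 := by nlinarith only [hr20]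
    have h17 : 8 * c * r ≤ 8 * c * r ^ 2 := mul_le_mul_of_nonneg_left h16 (by positivity)
    have e1 : (2 * c ^ 2 + 9 * c) * r ^ 2 = (2 * c ^ 2 + c) * r ^ 2 + 8 * c * r ^ 2 := by ring
    linarith only [h14, h17, e1]
  have e1 : r ^ 2 * (r * (k / 2)) ≤ r ^ 2 * (2 * c ^ 2 + 9 * c) := by
    have e2 : r ^ 2 * (r * (k / 2)) = r ^ 3 * (k / 2) := by ring
    have e3 : r ^ 2 * (2 * c ^ 2 + 9 * c) = (2 * c ^ 2 + 9 * c) * r ^ 2 := by ring
    linarith only [h15, e2, e3]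
  exact le_of_mul_le_mul_left e1 (by positivity)

theorem contra (c : ℝ) (hc1 : 1 ≤ c) (hc : 2 * c * (c - 1) < 1) :
    ∃ δ : ℝ, 0 < δ ∧ δ ≤ 1 / 20 ∧ ∃ R : ℝ, 20 ≤ R ∧ ∀ (p m : ℕ) (l : ℝ) (s : ℕ) (I D : ℝ),
      R ≤ Real.sqrt p → (m : ℝ) ≤ c * Real.sqrt p → (1 - δ) * Real.sqrt p < l → l + 1 ≤ I →
      I ≤ m → s ≤ m → 2 * I - m ≤ s → D ≤ (m - I) / 2 →
      (∀ z : ℕ, z + 2 ≤ s → Even (s + z) → s + z ≤ p - 1 →
        l ^ 2 * (s - D) - 2 * l * m - m * (z : ℝ) ^ 2 ≤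
          ((s : ℝ) - z) * ((p : ℝ) - 1 + 2 * z)) → False := by
  have hc0 : 0 < c := by linarith only [hc1]
  have hc37 : c < 1.37 := by
    by_contra h
    have h := not_lt.1 h
    nlinarith only [h, hc]
  set k : ℝ := 1 / (4 * c) - (c - 1) / 2 with hk
  have hkpos : 0 < k := by
    have h1 : k = (1 - 2 * c * (c - 1)) / (4 * c) := by
      rw [hk]; field_simp; ring
    rw [h1]
    apply div_pos
    · linarith only [hc]
    · linarith only [hc0]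
  have hk4 : k ≤ 1 / 4 := by
    have h1 : 1 / (4 * c) ≤ 1 / 4 := by
      apply one_div_le_one_div_of_le
      · norm_num
      · linarith only [hc1]
    rw [hk]; linarith only [h1, hc1]
  have h14c : 0 < 1 + 4 * c := by linarith only [hc0]
  set δ : ℝ := k / (1 + 4 * c) with hδ
  have hδpos : 0 < δ := div_pos hkpos h14c
  have hδ20 : δ ≤ 1 / 20 := by
    rw [hδ, div_le_iff₀ h14c]
    linarith only [hk4, hc1]
  have hδk : δ * (1 + 4 * c) = k := by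
    rw [hδ]; field_simp
  refine ⟨δ, hδpos, hδ20, max 20 (2 * (2 * c ^ 2 + 9 * c) / k + 1), le_max_left _ _, ?_⟩
  intro p m l s I D hR hm hl hlI hIm hsm hIs hD hz
  set r := Real.sqrt p with hr
  have hr20 : 20 ≤ r := le_trans (le_max_left _ _) hR
  have hr2 : 2 * (2 * c ^ 2 + 9 * c) / k + 1 ≤ r := le_trans (le_max_right _ _) hR
  have hrp : r ^ 2 = p := by
    rw [hr]; exact Real.sq_sqrt (Nat.cast_nonneg _)
  have hsm' : (s : ℝ) ≤ m := by exact_mod_cast hsm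
  have hr0 : 0 < r := by linarith only [hr20]
  -- the choice of z
  have hw0 : 0 ≤ r / (2 * c) := by positivity
  obtain ⟨z, hz1, hz2, hz3⟩ : ∃ z : ℕ, r / (2 * c) ≤ z ∧ (z : ℝ) ≤ r / (2 * c) + 2 ∧
      Even (s + z) := by
    have h1 := Nat.le_ceil (r / (2 * c))
    have h2 := Nat.ceil_lt_add_one hw0
    rcases Nat.even_or_odd (s + ⌈r / (2 * c)⌉₊) with h | h
    · exact ⟨_, h1, by linarith only [h2], h⟩
    · refine ⟨⌈r / (2 * c)⌉₊ + 1, ?_, ?_, ?_⟩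
      · push_cast; linarith only [h1]
      · push_cast; linarith only [h2]
      · rw [← add_assoc]; exact h.add_one
  have hwc : 2 * c * (r / (2 * c)) = r := by field_simp
  have hwr : r / (2 * c) ≤ r / 2 := by
    apply div_le_div_of_nonneg_left hr0.le (by norm_num) (by linarith only [hc1])
  have hδr : δ * r ≤ 1 / 20 * r := mul_le_mul_of_nonneg_right hδ20 hr0.le
  have hcr : c * r ≤ 1.37 * r := mul_le_mul_of_nonneg_right hc37.le hr0.le
  -- side conditions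
  have hcw : (c + 0.16) * r + r / (2 * c) ≤ 1.9 * r := by
    have h1 : 2 * c * ((c + 0.16) * r + r / (2 * c)) ≤ 2 * c * (1.9 * r) := by
      have e1 : 2 * c * ((c + 0.16) * r + r / (2 * c)) = (2 * c ^ 2 + 0.32 * c + 1) * r := by
        rw [mul_add, hwc]; ring
      rw [e1]
      have h2 : 2 * c ^ 2 + 0.32 * c + 1 ≤ 3.8 * c := by nlinarith only [hc1, hc37]
      have h3 := mul_le_mul_of_nonneg_right h2 hr0.le
      linarith only [h3]
    exact le_of_mul_le_mul_left h1 (by positivity)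
  have hs1 : (z : ℝ) + 2 ≤ s := by
    have h1 : 2 * ((1 - δ) * r + 1) - c * r ≤ s := by linarith only [hIs, hlI, hl, hm]
    linarith only [h1, hδr, hcw, hz2, hr20]
  have hs1' : z + 2 ≤ s := by exact_mod_cast hs1
  have hs2 : (s : ℝ) + z + 1 ≤ p := by
    rw [← hrp]
    have h1 : (s : ℝ) ≤ 1.37 * r := by linarith only [hsm', hm, hcr]
    nlinarith only [h1, hz2, hwr, hr20]
  have hs2' : s + z ≤ p - 1 := by
    have : s + z + 1 ≤ p := by exact_mod_cast hs2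
    omega
  have key := hz z hs1' hz3 hs2'
  rw [← hrp] at key
  have hsD : 0 ≤ (s : ℝ) - D := by
    linarith only [hIs, hD, hlI, hl, hm, hcr, hδr, hr20]
  have h16 := contra_real c k δ r m I s l z D hc1 hk hδpos hδ20 hδk hr20 hm hl hlI hIm hsm' hs1
    hsD hD hz1 hz2 key
  have h17 : 2 * (2 * c ^ 2 + 9 * c) / k < r := by linarith only [hr2]
  rw [div_lt_iff₀ hkpos] at h17
  linarith only [h16, h17]

end Pool.Agent.Paley67
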