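import Pool.Agent.Work.MP_9d0e17_co.Wron

set_option autoImplicit false

open Polynomial

namespace Pool.Agent.Paley67

variable {F : Type*} [Field F]

theorem inf_ker_finrank {E : Type*} [AddCommGroup E] [Module F E] (V : Submodule F E)
    [FiniteDimensional F V] (φ : E →ₗ[F] F) :
    Module.finrank F V ≤ Module.finrank F (V ⊓ LinearMap.ker φ : Submodule F E) + 1 := by
  let ψ : V →ₗ[F] F := φ.comp V.subtype
  have h1 := LinearMap.finrank_range_add_finrank_ker ψ
  have h2 : Module.finrank F (LinearMap.range ψ) ≤ 1 := by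
    have := Submodule.finrank_le (LinearMap.range ψ)
    simpa using this
  haveI : FiniteDimensional F (V ⊓ LinearMap.ker φ : Submodule F E) :=
    Submodule.finiteDimensional_of_le (S₂ := V) inf_le_left
  have h3 : Module.finrank F (LinearMap.ker ψ) ≤
      Module.finrank F (V ⊓ LinearMap.ker φ : Submodule F E) := by
    have h4 : (LinearMap.ker ψ).map V.subtype ≤ V ⊓ LinearMap.ker φ := by
      rintro _ ⟨x, hx, rfl⟩
      exact ⟨x.2, hx⟩
    have h5 := Submodule.finrank_mono h4
    rwa [Submodule.finrank_map_subtype_eq] at h5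
  omega

theorem chain_order (V : Submodule F F[X]) [FiniteDimensional F V] (b : F) (Y : ℕ)
    (hV : ∀ f ∈ V, (X - C b) ^ Y ∣ f) (m : ℕ) :
    ∃ V' : Submodule F F[X], V' ≤ V ∧ Module.finrank F V ≤ Module.finrank F V' + m ∧
      ∀ f ∈ V', (X - C b) ^ (Y + m) ∣ f := by
  induction m with
  | zero => exact ⟨V, le_rfl, by simp, by simpa using hV⟩
  | succ m ih =>
    obtain ⟨V', h1, h2, h3⟩ := ih
    haveI : FiniteDimensional F V' := Submodule.finiteDimensional_of_le h1
    let φ : F[X] →ₗ[F] F := (lcoeff F (Y + m)).comp (taylor b)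
    refine ⟨V' ⊓ LinearMap.ker φ, inf_le_left.trans h1, ?_, ?_⟩
    · have := inf_ker_finrank V' φ
      omega
    · intro f hf
      have h4 := h3 f hf.1
      have h5 : (taylor b f).coeff (Y + m) = 0 := hf.2
      rw [X_sub_C_pow_dvd_iff, X_pow_dvd_iff] at h4 ⊢
      intro d hd
      rcases Nat.lt_succ_iff_lt_or_eq.1 (show d < (Y + m) + 1 by omega) with h | h
      · exact h4 d h
      · rw [h]; exact h5

theorem plucker {p : ℕ} [CharP F p] (U : Submodule F F[X]) [FiniteDimensional F U] (n D Y : ℕ)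
    (hn : Module.finrank F U = n) (hD : ∀ f ∈ U, f.natDegree ≤ D) (hDp : D < p)
    (B : Finset F) (β : F → ℕ) (hβ : ∀ b ∈ B, β b ≤ n ∧ β b ≤ Y)
    (hV : ∀ b ∈ B, ∃ V : Submodule F F[X], V ≤ U ∧ n - β b ≤ Module.finrank F V ∧
      ∀ f ∈ V, (X - C b) ^ Y ∣ f) :
    (∑ b ∈ B, (n - β b) * (Y - β b)) + n * (n - 1) ≤ n * D := by
  classical
  obtain ⟨g, hgU, hg0, hganti⟩ := degree_basis n U D hD hn
  have hW : Wr g ≠ 0 := Wr_ne_zero (p := p) g hg0 hganti.injective D (fun j => hD _ (hgU j)) hDp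
  have hWd := Wr_natDegree g hW
  have hdeg : ∀ j : Fin n, (g j).natDegree + (j : ℕ) ≤ D := by
    rintro ⟨j, hj⟩
    induction j with
    | zero => simpa using hD _ (hgU ⟨0, hj⟩)
    | succ j ih =>
      have h1 := ih (by omega)
      have h2 : (g ⟨j + 1, hj⟩).natDegree < (g ⟨j, by omega⟩).natDegree :=
        hganti (by simp [Fin.lt_def])
      simp only at h1 ⊢
      omega
  have hsum : (∑ j : Fin n, (g j).natDegree) + ∑ j : Fin n, (j : ℕ) ≤ n * D := by
    rw [← Finset.sum_add_distrib]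
    calc ∑ j : Fin n, ((g j).natDegree + (j : ℕ)) ≤ ∑ _j : Fin n, D :=
          Finset.sum_le_sum fun j _ => hdeg j
      _ = n * D := by simp
  have hid : (∑ j : Fin n, (j : ℕ)) * 2 = n * (n - 1) := by
    rw [Fin.sum_univ_eq_sum_range (fun i => i), Finset.sum_range_id_mul_two]
  -- divisibility at each point
  have hdvd : ∀ b ∈ B, (X - C b) ^ ((n - β b) * (Y - β b)) ∣ Wr g := by
    intro b hb
    obtain ⟨hb1, hb2⟩ := hβ b hb
    obtain ⟨V, hVU, hVf, hVd⟩ := hV b hb
    haveI : FiniteDimensional F V := Submodule.finiteDimensional_of_le hVU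
    have hex : ∀ j : ℕ, ∃ G : Submodule F F[X], G ≤ U ∧ (j < n → n - j ≤ Module.finrank F G) ∧
        (β b ≤ j → ∀ f ∈ G, (X - C b) ^ (Y + (j - β b)) ∣ f) := by
      intro j
      by_cases hj : j < β b
      · exact ⟨U, le_rfl, fun _ => by omega, fun h => by omega⟩
      · obtain ⟨V', h1, h2, h3⟩ := chain_order V b Y hVd (j - β b)
        exact ⟨V', h1.trans hVU, fun _ => by omega, fun _ => h3⟩
    choose G hGU hGf hGd using hex
    obtain ⟨h, hli, hmem⟩ := chain_basis (n := n) G (fun j hj => hGf j hj)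
    have hspan : Submodule.span F (Set.range h) = U := by
      apply Submodule.eq_of_le_of_finrank_eq
      · rw [Submodule.span_le]
        rintro _ ⟨j, rfl⟩
        exact hGU _ (hmem j)
      · rw [finrank_span_eq_card hli, Fintype.card_fin, hn]
    have hcomb : ∀ j, ∃ c : Fin n → F, ∑ k, c k • h k = g j := by
      intro j
      have := hgU j
      rw [← hspan] at this
      exact (Submodule.mem_span_range_iff_exists_fun F).1 this
    choose c hc using hcomb
    have hWg : Wr g = Wr h * C (Matrix.of fun k j => c j k).det := by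
      apply Wr_comb
      intro j
      rw [← hc j]
      refine Finset.sum_congr rfl fun k _ => ?_
      rw [Matrix.of_apply, smul_eq_C_mul]
    rw [hWg]
    refine Dvd.dvd.mul_right ?_ _
    exact pow_dvd_Wr h b (β b) Y hb1 hb2 fun j hj => hGd _ hj _ (hmem j)
  have hprod : (∏ b ∈ B, (X - C b) ^ ((n - β b) * (Y - β b))) ∣ Wr g := by
    apply Finset.prod_dvd_of_coprime _ hdvd
    intro b _ b' _ hbb'
    exact IsCoprime.pow (isCoprime_X_sub_C_of_isUnit_sub (sub_ne_zero.2 hbb').isUnit)
  have hle := natDegree_le_of_dvd hprod hW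
  have hdeg2 : (∏ b ∈ B, (X - C b) ^ ((n - β b) * (Y - β b))).natDegree =
      ∑ b ∈ B, (n - β b) * (Y - β b) := by
    rw [natDegree_prod_of_monic _ _ fun b _ => (monic_X_sub_C b).pow _]
    refine Finset.sum_congr rfl fun b _ => ?_
    rw [natDegree_pow, natDegree_X_sub_C, mul_one]
  rw [hdeg2] at hle
  omega

end Pool.Agent.Paley67
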