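import Pool.Agent.Work.MP_9d0e17_co.Eigen
import Pool.Agent.Work.MP_9d0e17_co.Numeric

set_option autoImplicit false

open Matrix

namespace Pool.Agent.Paley67

/-- real symmetric matrix whose eigenvalues are at most `t` in absolute value -/
theorem quad_of_eigen {n : Type*} [Fintype n] [DecidableEq n] (A : Matrix n n ℝ)
    (hA : ∀ i j, A i j = A j i) (t : ℝ)
    (h : ∀ (x : n → ℝ) (μ : ℝ), x ≠ 0 → (∀ i, ∑ j, A i j * x j = μ * x i) → μ ≤ t)
    (x : n → ℝ) : ∑ i, ∑ j, A i j * x i * x j ≤ t * ∑ i, x i ^ 2 := by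
  let M : Matrix n n ℝ := t • (1 : Matrix n n ℝ) - A
  have hM : M.IsHermitian := by
    ext i j
    simp only [M, Matrix.conjTranspose_apply, Matrix.sub_apply, Matrix.smul_apply, star_trivial,
      Matrix.one_apply, hA i j, eq_comm]
  have hMv : ∀ (w : n → ℝ) (i : n), (M *ᵥ w) i = t * w i - ∑ j, A i j * w j := by
    intro w i
    show ((t • (1 : Matrix n n ℝ) - A) *ᵥ w) i = _
    rw [Matrix.sub_mulVec, Pi.sub_apply, Matrix.smul_mulVec, Matrix.one_mulVec, Pi.smul_apply,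
      smul_eq_mul]
    rfl
  have hps : M.PosSemidef := by
    rw [hM.posSemidef_iff_eigenvalues_nonneg]
    intro i
    have h1 := hM.mulVec_eigenvectorBasis i
    set v : n → ℝ := ⇑(hM.eigenvectorBasis i) with hv
    set ν := hM.eigenvalues i with hν
    have hv0 : v ≠ 0 := by
      intro h0
      have h2 := hM.eigenvectorBasis.orthonormal.ne_zero i
      apply h2
      ext j
      exact congrFun h0 j
    have h3 := h v (t - ν) hv0 (by
      intro j
      have h4 := congrFun h1 j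
      rw [hMv, Pi.smul_apply, smul_eq_mul] at h4
      linarith)
    show 0 ≤ ν
    linarith
  have h5 := hps.dotProduct_mulVec_nonneg x
  have h6 : star x ⬝ᵥ (M *ᵥ x) = t * ∑ i, x i ^ 2 - ∑ i, ∑ j, A i j * x i * x j := by
    rw [Finset.mul_sum, ← Finset.sum_sub_distrib]
    simp only [dotProduct, star_trivial]
    refine Finset.sum_congr rfl fun i _ => ?_
    rw [hMv, mul_sub, Finset.mul_sum]
    congr 1
    · ring
    · refine Finset.sum_congr rfl fun j _ => ?_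
      ring
  rw [h6] at h5
  linarith

theorem eigen_bound (c : ℝ) (hc1 : 1 ≤ c) (hc : 2 * c * (c - 1) < 1) :
    ∃ δ : ℝ, 0 < δ ∧ δ ≤ 1 / 20 ∧ ∃ R : ℝ, 20 ≤ R ∧ ∀ (p : ℕ) [Fact p.Prime], p % 4 = 1 →
      R ≤ Real.sqrt p → ∀ S : Finset (ZMod p), (S.card : ℝ) ≤ c * Real.sqrt p →
      ∀ (x : ZMod p → ℝ) (μ : ℝ), (∃ a ∈ S, x a ≠ 0) →
      (∀ a ∈ S, ∑ b ∈ S, (chi p (a - b) : ℝ) * x b = μ * x a) →
      |μ| ≤ (1 - δ) * Real.sqrt p := by
  obtain ⟨δ, h1, h2, R, h3, h4⟩ := contra c hc1 hc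
  refine ⟨δ, h1, h2, R, h3, ?_⟩
  intro p _ hp4 hR S hS x μ hx heig
  by_contra hcon
  have hcon := not_le.1 hcon
  obtain ⟨s, I, D, e1, e2, e3, e4, e5, e6⟩ := eigen_ineq hp4 S x μ hx heig
  exact h4 p S.card |μ| s I D hR hS hcon e1 e2 e3 e4 e5 e6

theorem quad_bound (c : ℝ) (hc1 : 1 ≤ c) (hc : 2 * c * (c - 1) < 1) :
    ∃ δ : ℝ, 0 < δ ∧ δ ≤ 1 / 20 ∧ ∃ R : ℝ, 20 ≤ R ∧ ∀ (p : ℕ) [Fact p.Prime], p % 4 = 1 →
      R ≤ Real.sqrt p → ∀ S : Finset (ZMod p), (S.card : ℝ) ≤ c * Real.sqrt p →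
      ∀ (x : ZMod p → ℝ),
      |∑ a ∈ S, ∑ b ∈ S, (chi p (a - b) : ℝ) * x a * x b| ≤
        (1 - δ) * Real.sqrt p * ∑ a ∈ S, x a ^ 2 := by
  classical
  obtain ⟨δ, h1, h2, R, h3, h4⟩ := eigen_bound c hc1 hc
  refine ⟨δ, h1, h2, R, h3, ?_⟩
  intro p _ hp4 hR S hS x
  have key : ∀ σ : ℝ, (σ = 1 ∨ σ = -1) →
      σ * ∑ a ∈ S, ∑ b ∈ S, (chi p (a - b) : ℝ) * x a * x b ≤
        (1 - δ) * Real.sqrt p * ∑ a ∈ S, x a ^ 2 := by
    intro σ hσ
    have hσ2 : σ * σ = 1 := by rcases hσ with rfl | rfl <;> norm_num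
    have hσa : |σ| = 1 := by rcases hσ with rfl | rfl <;> norm_num
    have h5 := quad_of_eigen (n := S) (fun a b => σ * (chi p ((a : ZMod p) - b) : ℝ))
      (fun a b => by rw [chi_sub_comm hp4]) ((1 - δ) * Real.sqrt p) (by
        intro v μ hv hev
        let y : ZMod p → ℝ := fun a => if h : a ∈ S then v ⟨a, h⟩ else 0
        have hy : ∀ a : S, y a = v a := by
          intro a; simp [y]
        obtain ⟨a, ha⟩ := Function.ne_iff.1 hv
        have h6 := h4 p hp4 hR S hS y (σ * μ) ⟨a, a.2, by rw [hy]; exact ha⟩ (by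
          intro a ha
          have h7 := hev ⟨a, ha⟩
          rw [← Finset.sum_coe_sort S (fun b => (chi p (a - b) : ℝ) * y b)]
          have h8 : ∑ b : S, σ * (chi p (a - (b : ZMod p)) : ℝ) * v b = μ * v ⟨a, ha⟩ := h7
          have h9 : ∑ b : S, (chi p (a - (b : ZMod p)) : ℝ) * y b =
              σ * ∑ b : S, σ * (chi p (a - (b : ZMod p)) : ℝ) * v b := by
            rw [Finset.mul_sum]
            refine Finset.sum_congr rfl fun b _ => ?_
            rw [hy b]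
            linear_combination (-(chi p (a - (b : ZMod p)) : ℝ) * v b) * hσ2
          rw [h9, h8, show y a = v ⟨a, ha⟩ from hy ⟨a, ha⟩]
          ring)
        have h7 : |σ * μ| = |μ| := by rw [abs_mul, hσa, one_mul]
        rw [h7] at h6
        exact (le_abs_self μ).trans h6) (fun a => x a)
    have h6 : ∑ a ∈ S, x a ^ 2 = ∑ a : S, x a ^ 2 :=
      (Finset.sum_coe_sort S (fun a => x a ^ 2)).symm
    have h7 : σ * ∑ a ∈ S, ∑ b ∈ S, (chi p (a - b) : ℝ) * x a * x b =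
        ∑ a : S, ∑ b : S, σ * (chi p ((a : ZMod p) - b) : ℝ) * x a * x b := by
      rw [← Finset.sum_coe_sort S (fun a => ∑ b ∈ S, (chi p (a - b) : ℝ) * x a * x b),
        Finset.mul_sum]
      refine Finset.sum_congr rfl fun a _ => ?_
      rw [← Finset.sum_coe_sort S (fun b => (chi p ((a : ZMod p) - b) : ℝ) * x a * x b),
        Finset.mul_sum]
      refine Finset.sum_congr rfl fun b _ => ?_
      ring
    rw [h6, h7]
    exact h5
  rw [abs_le]
  constructor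
  · have := key (-1) (Or.inr rfl)
    linarith
  · have := key 1 (Or.inl rfl)
    linarith

end Pool.Agent.Paley67
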