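import Pool.Agent.Work.MP_9d0e17_co.Step

set_option autoImplicit false

open Polynomial

namespace Pool.Agent.Paley67

variable {p : ℕ} [hp : Fact p.Prime]

/-- the quadratic character with integer values -/
noncomputable abbrev chi (p : ℕ) [Fact p.Prime] : ZMod p → ℤ := fun a => quadraticChar (ZMod p) a

theorem chi_cast (hp2 : p ≠ 2) (a : ZMod p) : ((chi p a : ℤ) : ZMod p) = a ^ (p / 2) := by
  have h : ringChar (ZMod p) ≠ 2 := by
    rw [ZMod.ringChar_zmod_n]; exact hp2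
  have := quadraticChar_eq_pow_of_char_ne_two' h a
  rw [ZMod.card] at this
  exact this

theorem sign_cast_iff (hp2 : p ≠ 2) (e n z : ℤ) (he : e = 1 ∨ e = -1) (hn : n = 1 ∨ n = -1)
    (hz : z = 1 ∨ z = -1 ∨ z = 0) :
    n * e * z = 1 ↔ ((e : ℤ) : ZMod p) * ((z : ℤ) : ZMod p) = ((n : ℤ) : ZMod p) := by
  have h1 : (1 : ZMod p) ≠ -1 := by
    haveI : Fact (2 < p) := ⟨lt_of_le_of_ne hp.out.two_le hp2.symm⟩
    exact (ZMod.neg_one_ne_one).symm
  have h0 : (1 : ZMod p) ≠ 0 := one_ne_zero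
  rcases he with rfl | rfl <;> rcases hn with rfl | rfl <;> rcases hz with rfl | rfl | rfl <;>
    simp [h1, h1.symm]

/-- `tau`: number of good points minus number of bad points -/
noncomputable def tau (T : Finset (ZMod p)) (e η : ZMod p → ℤ) (b : ZMod p) : ℤ :=
  ∑ a ∈ T, if η b * e a * chi p (b - a) = 1 then 1 else -1

theorem tau_eq (T : Finset (ZMod p)) (e η : ZMod p → ℤ) (b : ZMod p) :
    tau T e η b = (T.card : ℤ) -
      2 * ((T.filter fun a => ¬ (η b * e a * chi p (b - a) = 1)).card : ℤ) := by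
  unfold tau
  rw [Finset.sum_ite, Finset.sum_const, Finset.sum_const]
  have h := Finset.card_filter_add_card_filter_not (s := T)
    (fun a => η b * e a * chi p (b - a) = 1)
  simp only [nsmul_eq_mul, mul_one, mul_neg]
  push_cast [← h]
  ring

theorem robust (hp2 : p ≠ 2) (T B : Finset (ZMod p)) (e η : ZMod p → ℤ)
    (he : ∀ a, e a = 1 ∨ e a = -1) (hη : ∀ a, η a = 1 ∨ η a = -1)
    (z : ℕ) (hz : z + 2 ≤ T.card) (hpar : Even (T.card + z)) (hTp : T.card + z ≤ p - 1)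
    (hB : ∀ b ∈ B, (z : ℤ) ≤ tau T e η b) :
    ∑ b ∈ B, (tau T e η b ^ 2 - (z : ℤ) ^ 2) ≤ ((T.card : ℤ) - z) * ((p : ℤ) - 1 + 2 * z) := by
  classical
  obtain ⟨Y, hY⟩ := hpar
  have hp3 : 3 ≤ p := by
    have := hp.out.two_le
    omega
  have hodd : p / 2 * 2 + 1 = p := by
    have h1 := hp.out.eq_two_or_odd
    omega
  set n := Y - z with hn
  have hY2 : z + 1 ≤ Y := by omega
  have hnY : n + Y = T.card := by omega
  have hn1 : 1 ≤ n := by omega
  let ε' : ZMod p → ZMod p := fun a => ((e a : ℤ) : ZMod p)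
  let η' : ZMod p → ZMod p := fun a => ((η a : ℤ) : ZMod p)
  have hfil : ∀ b, (T.filter fun a => ε' a * (b - a) ^ (p / 2) ≠ η' b) =
      T.filter fun a => ¬ (η b * e a * chi p (b - a) = 1) := by
    intro b
    refine Finset.filter_congr fun a _ => ?_
    rw [not_iff_not, sign_cast_iff hp2 _ _ _ (he a) (hη b), chi_cast hp2]
    rcases eq_or_ne (b - a) 0 with h | h
    · right; right; simp [h]
    · rcases quadraticChar_dichotomy h with h' | h'
      · left; exact h'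
      · right; left; exact h'
  have htau : ∀ b, tau T e η b = (T.card : ℤ) -
      2 * ((T.filter fun a => ε' a * (b - a) ^ (p / 2) ≠ η' b).card : ℤ) := by
    intro b
    rw [tau_eq, hfil]
  have hε' : ∀ a ∈ T, ε' a ≠ 0 := by
    intro a _
    rcases he a with h | h <;> simp [ε', h]
  have hβ : ∀ b ∈ B, (T.filter fun a => ε' a * (b - a) ^ (p / 2) ≠ η' b).card ≤ n ∧
      (T.filter fun a => ε' a * (b - a) ^ (p / 2) ≠ η' b).card ≤ Y := by
    intro b hb
    have h1 := hB b hb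
    rw [htau] at h1
    omega
  have key := stepanov T ε' η' hε' n Y (by omega) hnY (by omega) (by omega) B hβ
  have key2 : ((∑ b ∈ B, (n - (T.filter fun a => ε' a * (b - a) ^ (p / 2) ≠ η' b).card) *
      (Y - (T.filter fun a => ε' a * (b - a) ^ (p / 2) ≠ η' b).card) : ℕ) : ℤ) +
      n * ((n : ℤ) - 1) ≤ n * (((p / 2 : ℕ) : ℤ) + ((Y : ℤ) - 1)) := by
    have : (((∑ b ∈ B, (n - (T.filter fun a => ε' a * (b - a) ^ (p / 2) ≠ η' b).card) *
      (Y - (T.filter fun a => ε' a * (b - a) ^ (p / 2) ≠ η' b).card)) + n * (n - 1) : ℕ) : ℤ) ≤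
      ((n * (p / 2 + (Y - 1)) : ℕ) : ℤ) := by exact_mod_cast key
    rw [Nat.cast_add, Nat.cast_mul, Nat.cast_sub hn1, Nat.cast_mul, Nat.cast_add,
      Nat.cast_sub (by omega : 1 ≤ Y)] at this
    push_cast at this ⊢
    exact this
  have hsum : ∑ b ∈ B, (tau T e η b ^ 2 - (z : ℤ) ^ 2) =
      4 * ((∑ b ∈ B, (n - (T.filter fun a => ε' a * (b - a) ^ (p / 2) ≠ η' b).card) *
      (Y - (T.filter fun a => ε' a * (b - a) ^ (p / 2) ≠ η' b).card) : ℕ) : ℤ) := by
    rw [Nat.cast_sum, Finset.mul_sum]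
    refine Finset.sum_congr rfl fun b hb => ?_
    obtain ⟨h1, h2⟩ := hβ b hb
    rw [Nat.cast_mul, Nat.cast_sub h1, Nat.cast_sub h2, htau]
    have e1 : (T.card : ℤ) = n + Y := by exact_mod_cast hnY.symm
    have e2 : (z : ℤ) = (Y : ℤ) - n := by omega
    rw [e1, e2]
    ring
  rw [hsum]
  have e1 : (T.card : ℤ) = n + Y := by exact_mod_cast hnY.symm
  have e2 : (z : ℤ) = (Y : ℤ) - n := by omega
  have e3 : (p : ℤ) = 2 * ((p / 2 : ℕ) : ℤ) + 1 := by omega
  rw [e1, e2, e3]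
  nlinarith [key2]

/-- linearised form with real multipliers -/
theorem robust_lin (hp2 : p ≠ 2) (T B : Finset (ZMod p)) (e η : ZMod p → ℤ)
    (he : ∀ a, e a = 1 ∨ e a = -1) (hη : ∀ a, η a = 1 ∨ η a = -1)
    (z : ℕ) (hz : z + 2 ≤ T.card) (hpar : Even (T.card + z)) (hTp : T.card + z ≤ p - 1)
    (u : ZMod p → ℝ) (hu : ∀ b ∈ B, 0 ≤ u b) :
    ∑ b ∈ B, (2 * u b * (tau T e η b : ℝ) - u b ^ 2 - (z : ℝ) ^ 2) ≤
      ((T.card : ℝ) - z) * ((p : ℝ) - 1 + 2 * z) := by
  classical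
  have h1 := robust hp2 T (B.filter fun b => (z : ℤ) ≤ tau T e η b) e η he hη z hz hpar hTp
    (fun b hb => (Finset.mem_filter.1 hb).2)
  have h2 : (∑ b ∈ B.filter fun b => (z : ℤ) ≤ tau T e η b,
      (((tau T e η b : ℤ) : ℝ) ^ 2 - (z : ℝ) ^ 2)) ≤
      ((T.card : ℝ) - z) * ((p : ℝ) - 1 + 2 * z) := by
    exact_mod_cast h1
  refine le_trans ?_ h2
  rw [Finset.sum_filter]
  refine Finset.sum_le_sum fun b hb => ?_
  have hub := hu b hb
  split_ifs with h
  · nlinarith [sq_nonneg (u b - (tau T e η b : ℝ))]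
  · have h3 : (tau T e η b : ℝ) ≤ z := by
      have : tau T e η b ≤ z := by omega
      exact_mod_cast this
    have hz0 : (0 : ℝ) ≤ z := Nat.cast_nonneg _
    nlinarith [sq_nonneg (u b - (z : ℝ)), mul_le_mul_of_nonneg_left h3 hub]

end Pool.Agent.Paley67
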