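import Pool.Agent.Work.MP_9d0e17_co.Step2
import Pool.Agent.Work.MP_9d0e17_co.Robust

set_option autoImplicit false

namespace Pool.Agent.Paley67

variable {p : ℕ} [hp : Fact p.Prime]

/-- signed character sum (the point `a = b` contributes `0`) -/
noncomputable def tau' (T : Finset (ZMod p)) (e η : ZMod p → ℤ) (b : ZMod p) : ℤ :=
  ∑ a ∈ T, η b * e a * chi p (b - a)

theorem tau'_eq (T : Finset (ZMod p)) (e η : ZMod p → ℤ)
    (he : ∀ a, e a = 1 ∨ e a = -1) (hη : ∀ a, η a = 1 ∨ η a = -1) (b : ZMod p) :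
    tau' T e η b = (T.card : ℤ) - (if b ∈ T then 1 else 0) -
      2 * ((T.filter fun a => a ≠ b ∧ ¬ (η b * e a * chi p (b - a) = 1)).card : ℤ) := by
  classical
  have h1 : ∀ a ∈ T, η b * e a * chi p (b - a) =
      (1 - (if a = b then 1 else 0)) -
        2 * (if a ≠ b ∧ ¬ (η b * e a * chi p (b - a) = 1) then 1 else 0) := by
    intro a _
    by_cases hab : a = b
    · have : chi p (b - a) = 0 := by
        rw [hab, sub_self]; exact quadraticChar_zero
      rw [this]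
      simp [hab]
    · have h2 : chi p (b - a) = 1 ∨ chi p (b - a) = -1 :=
        quadraticChar_dichotomy (sub_ne_zero.2 (Ne.symm hab))
      rcases he a with h | h <;> rcases hη b with h' | h' <;> rcases h2 with h'' | h'' <;>
        rw [h, h', h''] <;> simp [hab]
  unfold tau'
  rw [Finset.sum_congr rfl h1, Finset.sum_sub_distrib, Finset.sum_sub_distrib, ← Finset.mul_sum,
    Finset.sum_ite_eq', Finset.sum_const, nsmul_eq_mul, mul_one, ← Finset.sum_filter,
    Finset.sum_const, nsmul_eq_mul, mul_one]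

/-- the order shift at the point `b` -/
def zb (T : Finset (ZMod p)) (z : ℕ) (b : ZMod p) : ℤ := (z : ℤ) - (if b ∈ T then 1 else 0)

theorem robust2 (hp2 : p ≠ 2) (T B : Finset (ZMod p)) (e η : ZMod p → ℤ)
    (he : ∀ a, e a = 1 ∨ e a = -1) (hη : ∀ a, η a = 1 ∨ η a = -1)
    (z : ℕ) (hz1 : 1 ≤ z) (hz : z + 2 ≤ T.card) (hpar : Even (T.card + z))
    (hTp : T.card + z ≤ p - 1) (hB : ∀ b ∈ B, zb T z b ≤ tau' T e η b) :
    ∑ b ∈ B, (tau' T e η b ^ 2 - zb T z b ^ 2) ≤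
      ((T.card : ℤ) - z) * ((p : ℤ) - 1 + 2 * z) := by
  classical
  obtain ⟨Y, hY⟩ := hpar
  have hp3 : 3 ≤ p := by
    have := hp.out.two_le
    omega
  have hodd : p / 2 * 2 + 1 = p := by
    have h1 := hp.out.eq_two_or_odd
    omega
  set n := Y - z with hn
  have hY2 : z + 1 ≤ Y := by omega
  have hnY : n + Y = T.card := by omega
  have hn1 : 1 ≤ n := by omega
  let ε' : ZMod p → ZMod p := fun a => ((e a : ℤ) : ZMod p)
  let η' : ZMod p → ZMod p := fun a => ((η a : ℤ) : ZMod p)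
  have hfil : ∀ b, (T.filter fun a => a ≠ b ∧ ε' a * (b - a) ^ (p / 2) ≠ η' b) =
      T.filter fun a => a ≠ b ∧ ¬ (η b * e a * chi p (b - a) = 1) := by
    intro b
    refine Finset.filter_congr fun a _ => ?_
    have h0 : ε' a * (b - a) ^ (p / 2) ≠ η' b ↔ ¬ (η b * e a * chi p (b - a) = 1) := by
      rw [not_iff_not, sign_cast_iff hp2 _ _ _ (he a) (hη b), chi_cast hp2]
      rcases eq_or_ne (b - a) 0 with h | h
      · right; right; simp [h]
      · rcases quadraticChar_dichotomy h with h' | h'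
        · left; exact h'
        · right; left; exact h'
    rw [h0]
  have htau : ∀ b, tau' T e η b = (T.card : ℤ) - (if b ∈ T then 1 else 0) -
      2 * ((T.filter fun a => a ≠ b ∧ ε' a * (b - a) ^ (p / 2) ≠ η' b).card : ℤ) := by
    intro b
    rw [tau'_eq T e η he hη, hfil]
  have hε' : ∀ a ∈ T, ε' a ≠ 0 := by
    intro a _
    rcases he a with h | h <;> simp [ε', h]
  have hβ : ∀ b ∈ B, (T.filter fun a => a ≠ b ∧ ε' a * (b - a) ^ (p / 2) ≠ η' b).card ≤ n ∧
      (T.filter fun a => a ≠ b ∧ ε' a * (b - a) ^ (p / 2) ≠ η' b).card ≤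
        (if b ∈ T then Y - 1 else Y) := by
    intro b hb
    have h1 := hB b hb
    rw [htau] at h1
    unfold zb at h1
    split_ifs at h1 ⊢ <;> omega
  have key := stepanov2 T ε' η' hε' n Y (by omega) hnY (by omega) (by omega) B hβ
  have key2 : ((∑ b ∈ B, (n - (T.filter fun a => a ≠ b ∧ ε' a * (b - a) ^ (p / 2) ≠ η' b).card) *
      ((if b ∈ T then Y - 1 else Y) -
        (T.filter fun a => a ≠ b ∧ ε' a * (b - a) ^ (p / 2) ≠ η' b).card) : ℕ) : ℤ) +
      n * ((n : ℤ) - 1) ≤ n * (((p / 2 : ℕ) : ℤ) + ((Y : ℤ) - 1)) := by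
    have : (((∑ b ∈ B, (n - (T.filter fun a => a ≠ b ∧ ε' a * (b - a) ^ (p / 2) ≠ η' b).card) *
      ((if b ∈ T then Y - 1 else Y) -
        (T.filter fun a => a ≠ b ∧ ε' a * (b - a) ^ (p / 2) ≠ η' b).card)) + n * (n - 1) : ℕ) : ℤ) ≤
      ((n * (p / 2 + (Y - 1)) : ℕ) : ℤ) := by exact_mod_cast key
    rw [Nat.cast_add, Nat.cast_mul, Nat.cast_sub hn1, Nat.cast_mul, Nat.cast_add,
      Nat.cast_sub (by omega : 1 ≤ Y)] at this
    push_cast at this ⊢
    exact this
  have hsum : ∑ b ∈ B, (tau' T e η b ^ 2 - zb T z b ^ 2) =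
      4 * ((∑ b ∈ B, (n - (T.filter fun a => a ≠ b ∧ ε' a * (b - a) ^ (p / 2) ≠ η' b).card) *
      ((if b ∈ T then Y - 1 else Y) -
        (T.filter fun a => a ≠ b ∧ ε' a * (b - a) ^ (p / 2) ≠ η' b).card) : ℕ) : ℤ) := by
    rw [Nat.cast_sum, Finset.mul_sum]
    refine Finset.sum_congr rfl fun b hb => ?_
    obtain ⟨h1, h2⟩ := hβ b hb
    rw [Nat.cast_mul, Nat.cast_sub h1, Nat.cast_sub h2, htau]
    have e1 : (T.card : ℤ) = n + Y := by exact_mod_cast hnY.symm
    have e2 : (z : ℤ) = (Y : ℤ) - n := by omega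
    unfold zb
    by_cases hbT : b ∈ T
    · simp only [if_pos hbT]
      rw [e1, e2, Nat.cast_sub (by omega : 1 ≤ Y)]
      push_cast
      ring
    · simp only [if_neg hbT]
      rw [e1, e2]
      ring
  rw [hsum]
  have e1 : (T.card : ℤ) = n + Y := by exact_mod_cast hnY.symm
  have e2 : (z : ℤ) = (Y : ℤ) - n := by omega
  have e3 : (p : ℤ) = 2 * ((p / 2 : ℕ) : ℤ) + 1 := by omega
  rw [e1, e2, e3]
  nlinarith [key2]

/-- linearised form with a constant real multiplier -/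
theorem robust2_lin (hp2 : p ≠ 2) (T B : Finset (ZMod p)) (e η : ZMod p → ℤ)
    (he : ∀ a, e a = 1 ∨ e a = -1) (hη : ∀ a, η a = 1 ∨ η a = -1)
    (z : ℕ) (hz1 : 1 ≤ z) (hz : z + 2 ≤ T.card) (hpar : Even (T.card + z))
    (hTp : T.card + z ≤ p - 1) (u : ℝ) (hu : 0 ≤ u) :
    ∑ b ∈ B, (2 * u * (tau' T e η b : ℝ) - u ^ 2 - (zb T z b : ℝ) ^ 2) ≤
      ((T.card : ℝ) - z) * ((p : ℝ) - 1 + 2 * z) := by
  classical
  have h1 := robust2 hp2 T (B.filter fun b => zb T z b ≤ tau' T e η b) e η he hη z hz1 hz hpar hTp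
    (fun b hb => (Finset.mem_filter.1 hb).2)
  have h2 : (∑ b ∈ B.filter fun b => zb T z b ≤ tau' T e η b,
      (((tau' T e η b : ℤ) : ℝ) ^ 2 - ((zb T z b : ℤ) : ℝ) ^ 2)) ≤
      ((T.card : ℝ) - z) * ((p : ℝ) - 1 + 2 * z) := by
    exact_mod_cast h1
  refine le_trans ?_ h2
  rw [Finset.sum_filter]
  refine Finset.sum_le_sum fun b hb => ?_
  have hzb : 0 ≤ zb T z b := by
    unfold zb; split_ifs <;> omega
  have hz0 : (0 : ℝ) ≤ zb T z b := by exact_mod_cast hzb
  split_ifs with h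
  · nlinarith [sq_nonneg (u - (tau' T e η b : ℝ))]
  · have h3 : (tau' T e η b : ℝ) ≤ zb T z b := by
      have : tau' T e η b ≤ zb T z b := by omega
      exact_mod_cast this
    nlinarith [sq_nonneg (u - (zb T z b : ℝ)), mul_le_mul_of_nonneg_left h3 hu]

end Pool.Agent.Paley67
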