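import Pool.Agent.Work.MP_9d0e17_co.Pluck

set_option autoImplicit false

open Polynomial

namespace Pool.Agent.Paley67

theorem inf_ker_finrank' {F : Type*} [Field F] {E κ : Type*} [AddCommGroup E] [Module F E]
    [Fintype κ] (V : Submodule F E)
    [FiniteDimensional F V] (φ : E →ₗ[F] (κ → F)) :
    Module.finrank F V ≤ Module.finrank F (V ⊓ LinearMap.ker φ : Submodule F E) +
      Fintype.card κ := by
  let ψ : V →ₗ[F] (κ → F) := φ.comp V.subtype
  have h1 := LinearMap.finrank_range_add_finrank_ker ψ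
  have h2 : Module.finrank F (LinearMap.range ψ) ≤ Fintype.card κ := by
    have := Submodule.finrank_le (LinearMap.range ψ)
    simpa using this
  haveI : FiniteDimensional F (V ⊓ LinearMap.ker φ : Submodule F E) :=
    Submodule.finiteDimensional_of_le (S₂ := V) inf_le_left
  have h3 : Module.finrank F (LinearMap.ker ψ) ≤
      Module.finrank F (V ⊓ LinearMap.ker φ : Submodule F E) := by
    have h4 : (LinearMap.ker ψ).map V.subtype ≤ V ⊓ LinearMap.ker φ := by
      rintro _ ⟨x, hx, rfl⟩
      exact ⟨x.2, hx⟩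
    have h5 := Submodule.finrank_mono h4
    rwa [Submodule.finrank_map_subtype_eq] at h5
  omega

theorem exists_sub_finrank {F : Type*} [Field F] {E : Type*} [AddCommGroup E] [Module F E]
    (W : Submodule F E) [FiniteDimensional F W] (n : ℕ) (hn : n ≤ Module.finrank F W) :
    ∃ W' : Submodule F E, W' ≤ W ∧ Module.finrank F W' = n := by
  let b := Module.finBasis F W
  let v : Fin n → E := fun i => (b (Fin.castLE hn i) : E)
  have hv : LinearIndependent F v := by
    have h1 : LinearIndependent F (fun i : Fin n => b (Fin.castLE hn i)) :=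
      b.linearIndependent.comp _ (Fin.castLE_injective hn)
    exact h1.map' W.subtype (Submodule.ker_subtype W)
  refine ⟨Submodule.span F (Set.range v), ?_, ?_⟩
  · rw [Submodule.span_le]
    rintro _ ⟨i, rfl⟩
    exact (b (Fin.castLE hn i)).2
  · rw [finrank_span_eq_card hv, Fintype.card_fin]

variable {p : ℕ} [hp : Fact p.Prime]

/-- the linear map sending a coefficient vector to `∑ ε_a c_a (X - a)^P` -/
noncomputable def Psi (T : Finset (ZMod p)) (ε : ZMod p → ZMod p) (P : ℕ) :
    (T → ZMod p) →ₗ[ZMod p] (ZMod p)[X] :=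
  ∑ a : T, (LinearMap.toSpanSingleton (ZMod p) (ZMod p)[X] (C (ε a) * (X - C (a : ZMod p)) ^ P)).comp
    (LinearMap.proj a)

theorem Psi_apply (T : Finset (ZMod p)) (ε : ZMod p → ZMod p) (P : ℕ) (c : T → ZMod p) :
    Psi T ε P c = ∑ a : T, C (ε a * c a) * (X - C (a : ZMod p)) ^ P := by
  unfold Psi
  rw [LinearMap.sum_apply]
  refine Finset.sum_congr rfl fun a _ => ?_
  simp only [LinearMap.comp_apply, LinearMap.proj_apply, LinearMap.toSpanSingleton_apply,
    smul_eq_C_mul]
  rw [C_mul]; ring

theorem choose_ne_zero {P k : ℕ} (hP : P < p) (hk : k ≤ P) : ((P.choose k : ℕ) : ZMod p) ≠ 0 := by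
  intro h
  rw [ZMod.natCast_eq_zero_iff] at h
  have h1 : P.choose k ∣ P.factorial := by
    rw [← Nat.choose_mul_factorial_mul_factorial hk, mul_assoc]
    exact Dvd.intro _ rfl
  have h2 := (hp.out.dvd_factorial).1 (h.trans h1)
  omega

theorem coeff_X_sub_C_pow' (r : ZMod p) (n k : ℕ) :
    ((X - C r) ^ n).coeff k = (-r) ^ (n - k) * ((n.choose k : ℕ) : ZMod p) := by
  rw [sub_eq_add_neg, ← C_neg, coeff_X_add_C_pow]

theorem Psi_injective (T : Finset (ZMod p)) (ε : ZMod p → ZMod p) (hε : ∀ a ∈ T, ε a ≠ 0) (P : ℕ)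
    (hT : T.card ≤ P + 1) (hP : P < p) : Function.Injective (Psi T ε P) := by
  rw [injective_iff_map_eq_zero]
  intro c hc
  rw [Psi_apply] at hc
  -- moments
  have hm : ∀ j < T.card, ∑ a : T, (ε a * c a) * (-(a : ZMod p)) ^ j = 0 := by
    intro j hj
    have h1 := congrArg (fun f : (ZMod p)[X] => f.coeff (P - j)) hc
    simp only [finsetSum_coeff, coeff_C_mul, coeff_X_sub_C_pow', coeff_zero] at h1
    have h2 : P - (P - j) = j := by omega
    rw [h2] at h1
    have h3 : (∑ a : T, (ε a * c a) * (-(a : ZMod p)) ^ j) * ((P.choose (P - j) : ℕ) : ZMod p) =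
        0 := by
      rw [Finset.sum_mul, ← h1]
      refine Finset.sum_congr rfl fun a _ => ?_
      ring
    exact (mul_eq_zero.1 h3).resolve_right (choose_ne_zero hP (Nat.sub_le _ _))
  let e := T.equivFin
  have h0 : (fun i : Fin T.card => ε (e.symm i) * c (e.symm i)) = 0 := by
    apply Matrix.eq_zero_of_forall_pow_sum_mul_pow_eq_zero
      (f := fun i : Fin T.card => -((e.symm i : T) : ZMod p))
    · intro i j hij
      have : ((e.symm i : T) : ZMod p) = ((e.symm j : T) : ZMod p) := neg_injective hij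
      exact e.symm.injective (Subtype.ext this)
    · intro i
      have := hm i i.2
      rw [← Equiv.sum_comp e.symm] at this
      exact this
  funext a
  have h1 := congrFun h0 (e a)
  simp only [Equiv.symm_apply_apply, Pi.zero_apply] at h1
  exact (mul_eq_zero.1 h1).resolve_left (hε a a.2)

/-- vanishing moments kill low degree polynomials -/
theorem moments_kill (T : Finset (ZMod p)) (Y : ℕ) (c : T → ZMod p)
    (hc : ∀ j < Y, ∑ a : T, c a * (a : ZMod p) ^ j = 0) (q : (ZMod p)[X]) (hq : q.natDegree < Y) :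
    ∑ a : T, c a * q.eval (a : ZMod p) = 0 := by
  simp only [eval_eq_sum_range, Finset.mul_sum]
  rw [Finset.sum_comm]
  refine Finset.sum_eq_zero fun j hj => ?_
  have h1 : ∑ a : T, c a * (q.coeff j * (a : ZMod p) ^ j) =
      q.coeff j * ∑ a : T, c a * (a : ZMod p) ^ j := by
    rw [Finset.mul_sum]
    refine Finset.sum_congr rfl fun a _ => ?_
    ring
  rw [h1, hc j (by have := Finset.mem_range.1 hj; omega), mul_zero]

theorem stepanov (T : Finset (ZMod p)) (ε η : ZMod p → ZMod p) (hε : ∀ a ∈ T, ε a ≠ 0)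
    (n Y : ℕ) (hY : 1 ≤ Y) (hT : n + Y = T.card) (hn : n ≤ p / 2) (hYp : p / 2 + Y ≤ p)
    (B : Finset (ZMod p))
    (hβ : ∀ b ∈ B, (T.filter fun a => ε a * (b - a) ^ (p / 2) ≠ η b).card ≤ n ∧
      (T.filter fun a => ε a * (b - a) ^ (p / 2) ≠ η b).card ≤ Y) :
    (∑ b ∈ B, (n - (T.filter fun a => ε a * (b - a) ^ (p / 2) ≠ η b).card) *
      (Y - (T.filter fun a => ε a * (b - a) ^ (p / 2) ≠ η b).card)) + n * (n - 1) ≤
        n * (p / 2 + (Y - 1)) := by
  classical
  set P := p / 2 + (Y - 1) with hPdef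
  have hPp : P < p := by omega
  have hinj := Psi_injective T ε hε P (by omega) hPp
  -- moment map
  let M : (T → ZMod p) →ₗ[ZMod p] (Fin Y → ZMod p) :=
    LinearMap.pi fun j => ∑ a : T, ((a : ZMod p) ^ (j : ℕ)) • (LinearMap.proj a)
  have hM : ∀ c j, M c j = ∑ a : T, c a * (a : ZMod p) ^ (j : ℕ) := by
    intro c j
    simp only [M, LinearMap.pi_apply, LinearMap.sum_apply, LinearMap.smul_apply,
      LinearMap.proj_apply, smul_eq_mul]
    refine Finset.sum_congr rfl fun a _ => ?_
    ring
  have hWf : n ≤ Module.finrank (ZMod p) (LinearMap.ker M) := by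
    have h1 := LinearMap.finrank_range_add_finrank_ker M
    have h2 : Module.finrank (ZMod p) (LinearMap.range M) ≤ Y := by
      have := Submodule.finrank_le (LinearMap.range M)
      simpa using this
    have h3 : Module.finrank (ZMod p) (T → ZMod p) = T.card := by simp
    omega
  obtain ⟨W, hWM, hWn⟩ := exists_sub_finrank (LinearMap.ker M) n hWf
  have hmom : ∀ c ∈ W, ∀ j < Y, ∑ a : T, c a * (a : ZMod p) ^ j = 0 := by
    intro c hc j hj
    have h1 : M c = 0 := hWM hc
    have h2 := congrFun h1 ⟨j, hj⟩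
    rw [hM] at h2
    exact h2
  have hU : Module.finrank (ZMod p) (W.map (Psi T ε P)) = n := by
    rw [← hWn]
    exact (Submodule.equivMapOfInjective (Psi T ε P) hinj W).finrank_eq.symm
  haveI : FiniteDimensional (ZMod p) (W.map (Psi T ε P)) :=
    Module.Finite.equiv (Submodule.equivMapOfInjective (Psi T ε P) hinj W)
  refine plucker (p := p) (W.map (Psi T ε P)) n P Y hU ?_ hPp B
    (fun b => (T.filter fun a => ε a * (b - a) ^ (p / 2) ≠ η b).card) hβ ?_
  · rintro _ ⟨c, _, rfl⟩
    rw [Psi_apply]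
    refine natDegree_sum_le_of_forall_le _ _ fun a _ => ?_
    refine (natDegree_C_mul_le _ _).trans ?_
    rw [natDegree_pow, natDegree_X_sub_C, mul_one]
  · intro b hb
    -- restriction to the bad points
    let bad : T → Prop := fun a => ε a * (b - a) ^ (p / 2) ≠ η b
    let R : (T → ZMod p) →ₗ[ZMod p] ({a : T // bad a} → ZMod p) :=
      LinearMap.pi fun a => LinearMap.proj (a : T)
    have hR : ∀ c, c ∈ LinearMap.ker R → ∀ a : T, bad a → c a = 0 := by
      intro c hc a ha
      have h1 : R c = 0 := hc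
      exact congrFun h1 ⟨a, ha⟩
    have hcard : Fintype.card {a : T // bad a} =
        (T.filter fun a => ε a * (b - a) ^ (p / 2) ≠ η b).card := by
      rw [Fintype.card_subtype]
      have : (Finset.univ.filter fun a : T => bad a).map (Function.Embedding.subtype _) =
          T.filter fun a => ε a * (b - a) ^ (p / 2) ≠ η b := by
        ext x
        simp only [Finset.mem_map, Finset.mem_filter, Finset.mem_univ, true_and,
          Function.Embedding.coe_subtype, bad]
        constructor
        · rintro ⟨a, ha, rfl⟩; exact ⟨a.2, ha⟩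
        · rintro ⟨hx, hx'⟩; exact ⟨⟨x, hx⟩, hx', rfl⟩
      rw [← this, Finset.card_map]
    refine ⟨(W ⊓ LinearMap.ker R).map (Psi T ε P), Submodule.map_mono inf_le_left, ?_, ?_⟩
    · have h1 := inf_ker_finrank' W R
      rw [hWn, hcard] at h1
      have h2 := (Submodule.equivMapOfInjective (Psi T ε P) hinj (W ⊓ LinearMap.ker R)).finrank_eq
      rw [← h2]
      omega
    · rintro _ ⟨c, ⟨hcW, hcR⟩, rfl⟩
      rw [X_sub_C_pow_dvd_iff, X_pow_dvd_iff]
      intro k hk
      rw [Psi_apply]
      have e1 : (∑ a : T, C (ε a * c a) * (X - C (a : ZMod p)) ^ P).comp (X + C b) =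
          ∑ a : T, C (ε a * c a) * (X + C (b - (a : ZMod p))) ^ P := by
        rw [Polynomial.sum_comp]
        refine Finset.sum_congr rfl fun a _ => ?_
        simp only [mul_comp, C_comp, pow_comp, sub_comp, X_comp, C_sub]
        congr 2
        ring
      rw [e1]
      simp only [finsetSum_coeff, coeff_C_mul, coeff_X_add_C_pow]
      have hPk : P - k = p / 2 + (Y - 1 - k) := by omega
      rw [hPk]
      have e2 : ∀ a : T, ε a * c a * ((b - (a : ZMod p)) ^ (p / 2 + (Y - 1 - k)) *
          ((P.choose k : ℕ) : ZMod p)) =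
          (((P.choose k : ℕ) : ZMod p) * η b) * (c a * ((C b - X : (ZMod p)[X]) ^ (Y - 1 - k)).eval
            (a : ZMod p)) := by
        intro a
        rw [eval_pow, eval_sub, eval_C, eval_X, pow_add]
        by_cases ha : bad a
        · rw [hR c hcR a ha]; ring
        · have ha' : ε a * (b - a) ^ (p / 2) = η b := not_not.1 ha
          rw [← ha']; ring
      rw [Finset.sum_congr rfl fun a _ => e2 a, ← Finset.mul_sum,
        moments_kill T Y c (hmom c hcW) _ ?_, mul_zero]
      refine lt_of_le_of_lt (natDegree_pow_le) ?_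
      have h3 : (C b - X : (ZMod p)[X]).natDegree ≤ 1 := by
        refine (natDegree_sub_le _ _).trans ?_
        simp
      calc (Y - 1 - k) * (C b - X : (ZMod p)[X]).natDegree ≤ (Y - 1 - k) * 1 :=
            Nat.mul_le_mul_left _ h3
        _ < Y := by omega

end Pool.Agent.Paley67
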