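import Pool.Agent.Work.MP_9d0e17_co.Pluck2
import Pool.Agent.Work.MP_9d0e17_co.Step

set_option autoImplicit false

open Polynomial

namespace Pool.Agent.Paley67

variable {p : ℕ} [hp : Fact p.Prime]

/-- refined version of `stepanov`: a point `b` of `T` itself is not counted as a bad point, at the
cost of one order of vanishing -/
theorem stepanov2 (T : Finset (ZMod p)) (ε η : ZMod p → ZMod p) (hε : ∀ a ∈ T, ε a ≠ 0)
    (n Y : ℕ) (hY : 1 ≤ Y) (hT : n + Y = T.card) (hn : n ≤ p / 2) (hYp : p / 2 + Y ≤ p)
    (B : Finset (ZMod p))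
    (hβ : ∀ b ∈ B, (T.filter fun a => a ≠ b ∧ ε a * (b - a) ^ (p / 2) ≠ η b).card ≤ n ∧
      (T.filter fun a => a ≠ b ∧ ε a * (b - a) ^ (p / 2) ≠ η b).card ≤
        (if b ∈ T then Y - 1 else Y)) :
    (∑ b ∈ B, (n - (T.filter fun a => a ≠ b ∧ ε a * (b - a) ^ (p / 2) ≠ η b).card) *
      ((if b ∈ T then Y - 1 else Y) -
        (T.filter fun a => a ≠ b ∧ ε a * (b - a) ^ (p / 2) ≠ η b).card)) + n * (n - 1) ≤
        n * (p / 2 + (Y - 1)) := by
  classical
  set P := p / 2 + (Y - 1) with hPdef
  have hPp : P < p := by omega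
  have hinj := Psi_injective T ε hε P (by omega) hPp
  -- moment map
  let M : (T → ZMod p) →ₗ[ZMod p] (Fin Y → ZMod p) :=
    LinearMap.pi fun j => ∑ a : T, ((a : ZMod p) ^ (j : ℕ)) • (LinearMap.proj a)
  have hM : ∀ c j, M c j = ∑ a : T, c a * (a : ZMod p) ^ (j : ℕ) := by
    intro c j
    simp only [M, LinearMap.pi_apply, LinearMap.sum_apply, LinearMap.smul_apply,
      LinearMap.proj_apply, smul_eq_mul]
    refine Finset.sum_congr rfl fun a _ => ?_
    ring
  have hWf : n ≤ Module.finrank (ZMod p) (LinearMap.ker M) := by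
    have h1 := LinearMap.finrank_range_add_finrank_ker M
    have h2 : Module.finrank (ZMod p) (LinearMap.range M) ≤ Y := by
      have := Submodule.finrank_le (LinearMap.range M)
      simpa using this
    have h3 : Module.finrank (ZMod p) (T → ZMod p) = T.card := by simp
    omega
  obtain ⟨W, hWM, hWn⟩ := exists_sub_finrank (LinearMap.ker M) n hWf
  have hmom : ∀ c ∈ W, ∀ j < Y, ∑ a : T, c a * (a : ZMod p) ^ j = 0 := by
    intro c hc j hj
    have h1 : M c = 0 := hWM hc
    have h2 := congrFun h1 ⟨j, hj⟩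
    rw [hM] at h2
    exact h2
  have hU : Module.finrank (ZMod p) (W.map (Psi T ε P)) = n := by
    rw [← hWn]
    exact (Submodule.equivMapOfInjective (Psi T ε P) hinj W).finrank_eq.symm
  haveI : FiniteDimensional (ZMod p) (W.map (Psi T ε P)) :=
    Module.Finite.equiv (Submodule.equivMapOfInjective (Psi T ε P) hinj W)
  refine plucker2 (p := p) (W.map (Psi T ε P)) n P (fun b => if b ∈ T then Y - 1 else Y) hU ?_ hPp B
    (fun b => (T.filter fun a => a ≠ b ∧ ε a * (b - a) ^ (p / 2) ≠ η b).card) hβ ?_
  · rintro _ ⟨c, _, rfl⟩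
    rw [Psi_apply]
    refine natDegree_sum_le_of_forall_le _ _ fun a _ => ?_
    refine (natDegree_C_mul_le _ _).trans ?_
    rw [natDegree_pow, natDegree_X_sub_C, mul_one]
  · intro b hb
    -- restriction to the bad points
    let bad : T → Prop := fun a => (a : ZMod p) ≠ b ∧ ε a * (b - a) ^ (p / 2) ≠ η b
    let R : (T → ZMod p) →ₗ[ZMod p] ({a : T // bad a} → ZMod p) :=
      LinearMap.pi fun a => LinearMap.proj (a : T)
    have hR : ∀ c, c ∈ LinearMap.ker R → ∀ a : T, bad a → c a = 0 := by
      intro c hc a ha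
      have h1 : R c = 0 := hc
      exact congrFun h1 ⟨a, ha⟩
    have hcard : Fintype.card {a : T // bad a} =
        (T.filter fun a => a ≠ b ∧ ε a * (b - a) ^ (p / 2) ≠ η b).card := by
      rw [Fintype.card_subtype]
      have : (Finset.univ.filter fun a : T => bad a).map (Function.Embedding.subtype _) =
          T.filter fun a => a ≠ b ∧ ε a * (b - a) ^ (p / 2) ≠ η b := by
        ext x
        simp only [Finset.mem_map, Finset.mem_filter, Finset.mem_univ, true_and,
          Function.Embedding.coe_subtype, bad]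
        constructor
        · rintro ⟨a, ha, rfl⟩; exact ⟨a.2, ha⟩
        · rintro ⟨hx, hx'⟩; exact ⟨⟨x, hx⟩, hx', rfl⟩
      rw [← this, Finset.card_map]
    refine ⟨(W ⊓ LinearMap.ker R).map (Psi T ε P), Submodule.map_mono inf_le_left, ?_, ?_⟩
    · have h1 := inf_ker_finrank' W R
      rw [hWn, hcard] at h1
      have h2 := (Submodule.equivMapOfInjective (Psi T ε P) hinj (W ⊓ LinearMap.ker R)).finrank_eq
      rw [← h2]
      omega
    · rintro _ ⟨c, ⟨hcW, hcR⟩, rfl⟩
      rw [X_sub_C_pow_dvd_iff, X_pow_dvd_iff]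
      intro k hk
      have hkY : k < Y := by
        split_ifs at hk <;> omega
      rw [Psi_apply]
      have e1 : (∑ a : T, C (ε a * c a) * (X - C (a : ZMod p)) ^ P).comp (X + C b) =
          ∑ a : T, C (ε a * c a) * (X + C (b - (a : ZMod p))) ^ P := by
        rw [Polynomial.sum_comp]
        refine Finset.sum_congr rfl fun a _ => ?_
        simp only [mul_comp, C_comp, pow_comp, sub_comp, X_comp, C_sub]
        congr 2
        ring
      rw [e1]
      simp only [finsetSum_coeff, coeff_C_mul, coeff_X_add_C_pow]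
      have hPk : P - k = p / 2 + (Y - 1 - k) := by omega
      rw [hPk]
      have e2 : ∀ a : T, ε a * c a * ((b - (a : ZMod p)) ^ (p / 2 + (Y - 1 - k)) *
          ((P.choose k : ℕ) : ZMod p)) =
          (((P.choose k : ℕ) : ZMod p) * η b) * (c a * ((C b - X : (ZMod p)[X]) ^ (Y - 1 - k)).eval
            (a : ZMod p)) := by
        intro a
        rw [eval_pow, eval_sub, eval_C, eval_X, pow_add]
        by_cases hab : (a : ZMod p) = b
        · have hbT : b ∈ T := hab ▸ a.2
          have hk' : k < Y - 1 := by simpa [hbT] using hk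
          have hz : (b - (a : ZMod p)) = 0 := by rw [hab, sub_self]
          have hne : Y - 1 - k ≠ 0 := by omega
          rw [hz, zero_pow hne]; ring
        · by_cases ha : bad a
          · rw [hR c hcR a ha]; ring
          · have ha' : ε a * (b - a) ^ (p / 2) = η b := by
              by_contra h
              exact ha ⟨hab, h⟩
            rw [← ha']; ring
      rw [Finset.sum_congr rfl fun a _ => e2 a, ← Finset.mul_sum,
        moments_kill T Y c (hmom c hcW) _ ?_, mul_zero]
      refine lt_of_le_of_lt (natDegree_pow_le) ?_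
      have h3 : (C b - X : (ZMod p)[X]).natDegree ≤ 1 := by
        refine (natDegree_sub_le _ _).trans ?_
        simp
      calc (Y - 1 - k) * (C b - X : (ZMod p)[X]).natDegree ≤ (Y - 1 - k) * 1 :=
            Nat.mul_le_mul_left _ h3
        _ < Y := by omega

end Pool.Agent.Paley67
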