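import Mathlib

set_option autoImplicit false

open Polynomial

namespace Pool.Agent.Paley67

variable {F : Type*} [Field F]

/-- The Wronskian of a tuple of polynomials. -/
noncomputable def Wr {n : ℕ} (f : Fin n → F[X]) : F[X] :=
  (Matrix.of fun i j : Fin n => derivative^[(i : ℕ)] (f j)).det

theorem Wr_comb {n : ℕ} (f g : Fin n → F[X]) (M : Matrix (Fin n) (Fin n) F)
    (h : ∀ j, f j = ∑ k, C (M k j) * g k) : Wr f = Wr g * C M.det := by
  unfold Wr
  have : (Matrix.of fun i j : Fin n => derivative^[(i : ℕ)] (f j)) =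
      (Matrix.of fun i j : Fin n => derivative^[(i : ℕ)] (g j)) * M.map C := by
    apply Matrix.ext
    intro i j
    rw [Matrix.mul_apply]
    simp only [Matrix.of_apply, Matrix.map_apply]
    rw [h j, iterate_derivative_sum]
    refine Finset.sum_congr rfl fun k _ => ?_
    rw [iterate_derivative_C_mul, mul_comm]
  rw [this, Matrix.det_mul, ← RingHom.mapMatrix_apply, ← RingHom.map_det]

theorem chain_basis {V : Type*} [AddCommGroup V] [Module F V] {n : ℕ}
    (G : ℕ → Submodule F V) (hG : ∀ j < n, n - j ≤ Module.finrank F (G j)) :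
    ∃ g : Fin n → V, LinearIndependent F g ∧ ∀ j : Fin n, g j ∈ G j := by
  have key : ∀ m, m ≤ n → ∃ g : Fin m → V, LinearIndependent F g ∧
      ∀ j : Fin m, g j ∈ G (n - m + j) := by
    intro m
    induction m with
    | zero => intro _; exact ⟨Fin.elim0, linearIndependent_empty_type, fun j => j.elim0⟩
    | succ m ih =>
      intro hm
      obtain ⟨g, hg, hgG⟩ := ih (by omega)
      have h1 : ¬ (G (n - (m + 1)) ≤ Submodule.span F (Set.range g)) := by
        intro hle
        haveI : FiniteDimensional F (Submodule.span F (Set.range g)) :=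
          FiniteDimensional.span_of_finite F (Set.finite_range g)
        have h2 := Submodule.finrank_mono hle
        have h3 : Module.finrank F (Submodule.span F (Set.range g)) = m := by
          rw [finrank_span_eq_card hg, Fintype.card_fin]
        have h4 := hG (n - (m + 1)) (by omega)
        omega
      obtain ⟨v, hv, hv'⟩ := SetLike.not_le_iff_exists.1 h1
      refine ⟨Fin.cons v g, linearIndependent_finCons.2 ⟨hg, hv'⟩, fun j => ?_⟩
      refine Fin.cases ?_ (fun i => ?_) j
      · simpa using hv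
      · have := hgG i
        simp only [Fin.cons_succ, Fin.val_succ]
        have e : n - (m + 1) + ((i : ℕ) + 1) = n - m + i := by omega
        rw [e]; exact this
  obtain ⟨g, hg, hgG⟩ := key n le_rfl
  refine ⟨g, hg, fun j => ?_⟩
  have := hgG j
  simpa using this

theorem degree_basis (n : ℕ) : ∀ (U : Submodule F F[X]) (D : ℕ) [FiniteDimensional F U],
    (∀ f ∈ U, f.natDegree ≤ D) → Module.finrank F U = n →
    ∃ g : Fin n → F[X], (∀ j, g j ∈ U) ∧ (∀ j, g j ≠ 0) ∧
      StrictAnti (fun j => (g j).natDegree) := by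
  induction n with
  | zero => intro U D _ _ _; exact ⟨Fin.elim0, fun j => j.elim0, fun j => j.elim0, fun j => j.elim0⟩
  | succ n ih =>
    intro U D _ hD hn
    have hne : U ≠ ⊥ := by
      intro h; rw [h] at hn; simp at hn
    obtain ⟨f1, hf1, hf1'⟩ := Submodule.exists_mem_ne_zero_of_ne_bot hne
    -- maximal degree
    let Q : ℕ → Prop := fun d => ∃ f ∈ U, f ≠ 0 ∧ f.natDegree = d
    have hQ1 : ∃ d, Q d := ⟨_, f1, hf1, hf1', rfl⟩
    have hQ2 : ∀ d, Q d → d ≤ D := by
      rintro d ⟨f, hf, _, rfl⟩; exact hD f hf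
    classical
    set d := Nat.findGreatest Q D with hd
    obtain ⟨d1, hd1⟩ := hQ1
    have hQd : Q d := Nat.findGreatest_spec (hQ2 d1 hd1) hd1
    have hmax : ∀ f ∈ U, f ≠ 0 → f.natDegree ≤ d := fun f hf hf0 =>
      Nat.le_findGreatest (hD f hf) ⟨f, hf, hf0, rfl⟩
    obtain ⟨f0, hf0, hf00, hf0d⟩ := hQd
    let U' : Submodule F F[X] := U ⊓ LinearMap.ker (lcoeff F d)
    have hU'U : U' ≤ U := inf_le_left
    haveI : FiniteDimensional F U' := Submodule.finiteDimensional_of_le hU'U
    have hf0' : f0 ∉ U' := by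
      intro h
      have h2 : f0.coeff d = 0 := by simpa [U'] using h.2
      rw [← hf0d] at h2
      exact hf00 (leadingCoeff_eq_zero.1 h2)
    have hlt : Module.finrank F U' < Module.finrank F U :=
      Submodule.finrank_lt_finrank_of_lt (lt_of_le_of_ne hU'U (fun h => hf0' (h ▸ hf0)))
    have hge : Module.finrank F U ≤ Module.finrank F U' + 1 := by
      let φ : U →ₗ[F] F := (lcoeff F d).comp U.subtype
      have h1 := LinearMap.finrank_range_add_finrank_ker φ
      have h2 : Module.finrank F (LinearMap.range φ) ≤ 1 := by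
        have := Submodule.finrank_le (LinearMap.range φ)
        simpa using this
      have h3 : Module.finrank F (LinearMap.ker φ) ≤ Module.finrank F U' := by
        have h4 : (LinearMap.ker φ).map U.subtype ≤ U' := by
          rintro _ ⟨x, hx, rfl⟩
          refine ⟨x.2, ?_⟩
          simpa [φ] using hx
        have h5 := Submodule.finrank_mono h4
        rwa [Submodule.finrank_map_subtype_eq] at h5
      omega
    have hU'n : Module.finrank F U' = n := by omega
    obtain ⟨g, hg1, hg2, hg3⟩ := ih U' D (fun f hf => hD f hf.1) hU'n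
    have hgd : ∀ j, (g j).natDegree < d := by
      intro j
      have h1 := hmax (g j) (hg1 j).1 (hg2 j)
      refine lt_of_le_of_ne h1 (fun h => ?_)
      have h2 : (g j).coeff d = 0 := by simpa [U'] using (hg1 j).2
      rw [← h] at h2
      exact hg2 j (leadingCoeff_eq_zero.1 h2)
    refine ⟨Fin.cons f0 g, ?_, ?_, ?_⟩
    · intro j; refine Fin.cases ?_ (fun i => ?_) j
      · simpa using hf0
      · simpa using (hg1 i).1
    · intro j; refine Fin.cases ?_ (fun i => ?_) j
      · simpa using hf00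
      · simpa using hg2 i
    · intro i j hij
      induction i using Fin.cases with
      | zero =>
        induction j using Fin.cases with
        | zero => exact absurd hij (lt_irrefl _)
        | succ j => simpa [hf0d] using hgd j
      | succ i =>
        induction j using Fin.cases with
        | zero => exact absurd hij (by simp)
        | succ j => simpa using hg3 (by simpa using hij)

theorem theta_coeff (i : ℕ) (f : F[X]) (m : ℕ) :
    (X ^ i * derivative^[i] f).coeff m = (m.descFactorial i : F) * f.coeff m := by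
  rw [coeff_X_pow_mul']
  split_ifs with h
  · rw [coeff_iterate_derivative, Nat.sub_add_cancel h, nsmul_eq_mul]
  · rw [Nat.descFactorial_of_lt (by omega)]; simp

theorem theta_natDegree (i : ℕ) (f : F[X]) : (X ^ i * derivative^[i] f).natDegree ≤ f.natDegree := by
  rw [natDegree_le_iff_coeff_eq_zero]
  intro m hm
  rw [theta_coeff, coeff_eq_zero_of_natDegree_lt hm, mul_zero]

theorem Wr_theta {n : ℕ} (g : Fin n → F[X]) :
    (Matrix.of fun i j : Fin n => X ^ (i : ℕ) * derivative^[(i : ℕ)] (g j)).det =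
      X ^ (∑ i : Fin n, (i : ℕ)) * Wr g := by
  have := Matrix.det_mul_column (fun i : Fin n => (X : F[X]) ^ (i : ℕ))
    (Matrix.of fun i j : Fin n => derivative^[(i : ℕ)] (g j))
  rw [Finset.prod_pow_eq_pow_sum] at this
  exact this

theorem Wr_ne_zero {p n : ℕ} [CharP F p] (g : Fin n → F[X]) (hne : ∀ j, g j ≠ 0)
    (hinj : Function.Injective fun j => (g j).natDegree) (D : ℕ) (hD : ∀ j, (g j).natDegree ≤ D)
    (hDp : D < p) : Wr g ≠ 0 := by
  intro h0
  have h1 : (Matrix.of fun i j : Fin n => X ^ (i : ℕ) * derivative^[(i : ℕ)] (g j)).det = 0 := by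
    rw [Wr_theta, h0, mul_zero]
  let K : Matrix (Fin n) (Fin n) F[X] := Matrix.of fun i j =>
    X ^ (D - (g j).natDegree) * (X ^ (i : ℕ) * derivative^[(i : ℕ)] (g j))
  have h2 : K.det = 0 := by
    have := Matrix.det_mul_row (fun j : Fin n => (X : F[X]) ^ (D - (g j).natDegree))
      (Matrix.of fun i j : Fin n => X ^ (i : ℕ) * derivative^[(i : ℕ)] (g j))
    rw [h1, mul_zero] at this
    exact this
  have hKdeg : ∀ i j, (K i j).natDegree ≤ D := by
    intro i j
    refine (natDegree_mul_le).trans ?_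
    have e1 : (X ^ (D - (g j).natDegree) : F[X]).natDegree ≤ D - (g j).natDegree :=
      natDegree_X_pow_le _
    have e2 := theta_natDegree (i : ℕ) (g j)
    have e3 := hD j
    have e4 : (X ^ (D - (g j).natDegree) : F[X]).natDegree +
      (X ^ (i : ℕ) * derivative^[(i : ℕ)] (g j)).natDegree ≤
        (D - (g j).natDegree) + (g j).natDegree := add_le_add e1 e2
    exact e4.trans (by omega)
  have hKc : ∀ i j, (K i j).coeff D =
      (g j).leadingCoeff * (descPochhammer F (i : ℕ)).eval (((g j).natDegree : ℕ) : F) := by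
    intro i j
    show (X ^ (D - (g j).natDegree) * (X ^ (i : ℕ) * derivative^[(i : ℕ)] (g j))).coeff D = _
    rw [coeff_X_pow_mul', if_pos (Nat.sub_le _ _), theta_coeff, Nat.sub_sub_self (hD j),
      descPochhammer_eval_eq_descFactorial, mul_comm]
    rfl
  have h3 : K.det.coeff (n * D) =
      (Matrix.of fun i j : Fin n => (K i j).coeff D).det := by
    rw [Matrix.det_apply, Matrix.det_apply, finset_sum_coeff]
    refine Finset.sum_congr rfl fun σ _ => ?_
    rw [Units.smul_def, Units.smul_def, coeff_smul]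
    congr 1
    have := coeff_prod_of_natDegree_le (s := Finset.univ) (fun i : Fin n => K (σ i) i) D
      (fun i _ => hKdeg _ _)
    rw [Finset.card_univ, Fintype.card_fin] at this
    rw [this]
    rfl
  rw [h2, coeff_zero] at h3
  have h4 : (Matrix.of fun i j : Fin n => (K i j).coeff D) =
      Matrix.of fun i j => (g j).leadingCoeff *
        (Matrix.of fun i j : Fin n => (descPochhammer F (i : ℕ)).eval
          (((g j).natDegree : ℕ) : F)) i j := by
    ext i j
    simp only [Matrix.of_apply]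
    rw [hKc]
  rw [h4, Matrix.det_mul_row] at h3
  have h5 : (Matrix.of fun i j : Fin n => (descPochhammer F (i : ℕ)).eval
          (((g j).natDegree : ℕ) : F)).det =
      (Matrix.vandermonde fun j : Fin n => (((g j).natDegree : ℕ) : F)).det := by
    rw [Matrix.det_eval_matrixOfPolynomials_eq_det_vandermonde
      (fun j : Fin n => (((g j).natDegree : ℕ) : F)) (fun i => descPochhammer F (i : ℕ))
      (fun i => descPochhammer_natDegree F _) (fun i => monic_descPochhammer F _),
      ← Matrix.det_transpose]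
    rfl
  rw [h5] at h3
  have h6 : (Matrix.vandermonde fun j : Fin n => (((g j).natDegree : ℕ) : F)).det ≠ 0 := by
    rw [Matrix.det_vandermonde_ne_zero_iff]
    intro i j hij
    apply hinj
    have hi := hD i
    have hj := hD j
    exact CharP.natCast_injOn_Iio F p (Set.mem_Iio.2 (lt_of_le_of_lt hi hDp))
      (Set.mem_Iio.2 (lt_of_le_of_lt hj hDp)) hij
  have h7 : (∏ j : Fin n, (g j).leadingCoeff) ≠ 0 :=
    Finset.prod_ne_zero_iff.2 fun j _ => leadingCoeff_ne_zero.2 (hne j)
  exact mul_ne_zero h7 h6 h3.symm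

theorem Wr_natDegree {n : ℕ} (g : Fin n → F[X]) (h : Wr g ≠ 0) :
    (∑ i : Fin n, (i : ℕ)) + (Wr g).natDegree ≤ ∑ j, (g j).natDegree := by
  have h1 : (X ^ (∑ i : Fin n, (i : ℕ)) * Wr g).natDegree =
      (∑ i : Fin n, (i : ℕ)) + (Wr g).natDegree := by
    rw [natDegree_mul (pow_ne_zero _ X_ne_zero) h, natDegree_X_pow]
  rw [← h1, ← Wr_theta, Matrix.det_apply]
  refine natDegree_sum_le_of_forall_le _ _ fun σ _ => ?_
  rw [Units.smul_def]
  refine (natDegree_smul_le _ _).trans ?_
  refine (natDegree_prod_le _ _).trans ?_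
  refine Finset.sum_le_sum fun i _ => ?_
  exact theta_natDegree _ _

theorem sum_distinct (s : Finset ℕ) : ∑ i ∈ Finset.range s.card, i ≤ ∑ x ∈ s, x := by
  induction s using Finset.induction_on_max with
  | empty => simp
  | insert a s hs ih =>
    have ha : a ∉ s := fun h => lt_irrefl _ (hs a h)
    rw [Finset.card_insert_of_notMem ha, Finset.sum_range_succ, Finset.sum_insert ha]
    have : s.card ≤ a := by
      have h1 : s ⊆ Finset.range a := fun x hx => Finset.mem_range.2 (hs x hx)
      simpa using Finset.card_le_card h1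
    omega

theorem perm_ineq {n : ℕ} (σ : Equiv.Perm (Fin n)) (β Y : ℕ) (hn : β ≤ n) (hY : β ≤ Y) :
    (n - β) * (Y - β) ≤ ∑ i : Fin n, if β ≤ (i : ℕ) then Y + ((i : ℕ) - β) - (σ i : ℕ) else 0 := by
  classical
  have h1 : ∑ i : Fin n, ((σ i : ℕ) : ℤ) = ∑ i : Fin n, ((i : ℕ) : ℤ) :=
    Equiv.sum_comp σ (fun i : Fin n => ((i : ℕ) : ℤ))
  -- small part
  set A : Finset (Fin n) := Finset.univ.filter fun i : Fin n => (i : ℕ) < β with hA
  have hAcard : A.card = β := by
    rw [hA]
    have : (Finset.univ.filter fun i : Fin n => (i : ℕ) < β).image (fun i : Fin n => (i : ℕ)) =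
        Finset.range β := by
      ext x
      simp only [Finset.mem_image, Finset.mem_filter, Finset.mem_univ, true_and, Finset.mem_range]
      constructor
      · rintro ⟨i, hi, rfl⟩; exact hi
      · intro hx; exact ⟨⟨x, by omega⟩, hx, rfl⟩
    rw [← Finset.card_image_of_injective _ Fin.val_injective, this, Finset.card_range]
  have hAid : ∑ i ∈ A, (i : ℕ) = ∑ i ∈ Finset.range β, i := by
    have : A.image (fun i : Fin n => (i : ℕ)) = Finset.range β := by
      ext x
      simp only [hA, Finset.mem_image, Finset.mem_filter, Finset.mem_univ, true_and,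
        Finset.mem_range]
      constructor
      · rintro ⟨i, hi, rfl⟩; exact hi
      · intro hx; exact ⟨⟨x, by omega⟩, hx, rfl⟩
    rw [← this, Finset.sum_image (fun a _ b _ h => Fin.val_injective h)]
  have hAσ : ∑ i ∈ Finset.range β, i ≤ ∑ i ∈ A, (σ i : ℕ) := by
    have h := sum_distinct (A.image fun i => (σ i : ℕ))
    have hinj : Function.Injective (fun i : Fin n => ((σ i : Fin n) : ℕ)) :=
      Fin.val_injective.comp σ.injective
    rw [Finset.card_image_of_injective _ hinj, hAcard,
      Finset.sum_image (fun a _ b _ h => hinj h)] at h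
    exact h
  have h2 : ∑ i : Fin n, (((if β ≤ (i : ℕ) then Y + ((i : ℕ) - β) - (σ i : ℕ) else 0 : ℕ)) : ℤ) ≥
      ∑ i : Fin n, (if β ≤ (i : ℕ) then ((Y : ℤ) - β) + ((i : ℕ) : ℤ) - ((σ i : ℕ) : ℤ)
        else 0) := by
    refine Finset.sum_le_sum fun i _ => ?_
    split_ifs with h
    · push_cast
      omega
    · simp
  have h3 : ∑ i : Fin n, (if β ≤ (i : ℕ) then ((Y : ℤ) - β) + ((i : ℕ) : ℤ) - ((σ i : ℕ) : ℤ)
        else 0) = ((n : ℤ) - β) * ((Y : ℤ) - β) +
        ((∑ i ∈ A, ((σ i : ℕ) : ℤ)) - ∑ i ∈ A, ((i : ℕ) : ℤ)) := by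
    have e1 : ∀ i : Fin n, (if β ≤ (i : ℕ) then ((Y : ℤ) - β) + ((i : ℕ) : ℤ) - ((σ i : ℕ) : ℤ)
        else 0) = (((Y : ℤ) - β) + ((i : ℕ) : ℤ) - ((σ i : ℕ) : ℤ)) -
          (if (i : ℕ) < β then (((Y : ℤ) - β) + ((i : ℕ) : ℤ) - ((σ i : ℕ) : ℤ)) else 0) := by
      intro i
      by_cases h : β ≤ (i : ℕ)
      · rw [if_pos h, if_neg (by omega)]; ring
      · rw [if_neg h, if_pos (by omega)]; ring
    rw [Finset.sum_congr rfl fun i _ => e1 i, Finset.sum_sub_distrib, ← Finset.sum_filter, ← hA]
    simp only [Finset.sum_sub_distrib, Finset.sum_add_distrib, Finset.sum_const, hAcard,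
      Finset.card_univ, Fintype.card_fin, nsmul_eq_mul, h1]
    ring
  have h4 : (0 : ℤ) ≤ (∑ i ∈ A, ((σ i : ℕ) : ℤ)) - ∑ i ∈ A, ((i : ℕ) : ℤ) := by
    have := hAid ▸ hAσ
    have : (∑ i ∈ A, (i : ℕ) : ℕ) ≤ ∑ i ∈ A, (σ i : ℕ) := this
    have h5 : ((∑ i ∈ A, (i : ℕ) : ℕ) : ℤ) ≤ ((∑ i ∈ A, (σ i : ℕ) : ℕ) : ℤ) := by
      exact_mod_cast this
    push_cast at h5
    linarith
  have h5 : (((n - β) * (Y - β) : ℕ) : ℤ) ≤
      ((∑ i : Fin n, if β ≤ (i : ℕ) then Y + ((i : ℕ) - β) - (σ i : ℕ) else 0 : ℕ) : ℤ) := by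
    rw [Nat.cast_mul, Nat.cast_sub hn, Nat.cast_sub hY, Nat.cast_sum]
    linarith
  exact_mod_cast h5

theorem pow_dvd_Wr {n : ℕ} (g : Fin n → F[X]) (b : F) (β Y : ℕ) (hn : β ≤ n) (hY : β ≤ Y)
    (hg : ∀ j : Fin n, β ≤ (j : ℕ) → (X - C b) ^ (Y + ((j : ℕ) - β)) ∣ g j) :
    (X - C b) ^ ((n - β) * (Y - β)) ∣ Wr g := by
  unfold Wr
  rw [Matrix.det_apply]
  refine Finset.dvd_sum fun σ _ => ?_
  rw [Units.smul_def, zsmul_eq_mul]
  refine Dvd.dvd.mul_left ?_ _
  refine (pow_dvd_pow _ (perm_ineq σ β Y hn hY)).trans ?_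
  rw [← Finset.prod_pow_eq_pow_sum]
  refine Finset.prod_dvd_prod_of_dvd _ _ fun i _ => ?_
  simp only [Matrix.of_apply]
  split_ifs with h
  · exact pow_sub_dvd_iterate_derivative_of_pow_dvd _ (hg i h)
  · simp

end Pool.Agent.Paley67
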